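import Pool.Agent.N20.EN.Stm
import Pool.Agent.Y63.NV.Final

set_option linter.unusedSectionVars false

/-!
# Project EN (helper20), NQO: weights and quotients by normal `p`-subgroups, with orbits
-/

set_option autoImplicit false

open scoped Classical BigOperators

noncomputable section

namespace Pool.Agent.N717.EN

open Pool.Agent.Y63.NV
open Pool.Agent.Y63.AWC (IsIrreducibleCharacter)
open Pool.Agent.N20.EN
open Pool.Agent.Y210.NV3 (pr pr_surj wt_iff wt_exists card_comap)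

section

variable {Γ : Type} [Group Γ] [Finite Γ] (P : Subgroup Γ) [P.Normal]

theorem push_eq {F : Type} [Field F] (L : Subgroup (Γ ⧸ P)) (z : Γ → F) :
    (fun y : L => ∑ᶠ x : ↥(L.comap (QuotientGroup.mk' P)),
      @ite F (pr P L x = y) (Classical.propDecidable _) (z x) 0) = fun y : L => push P z y := by
  funext y
  unfold push
  have e2 : ∀ g : Γ, (if (g : Γ ⧸ P) = (y : Γ ⧸ P) then z g else 0) =
      ∑ᶠ (_ : g ∈ L.comap (QuotientGroup.mk' P)),
        (if (g : Γ ⧸ P) = (y : Γ ⧸ P) then z g else 0) := by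
    intro g
    rw [finsum_eq_if]
    by_cases hg : g ∈ L.comap (QuotientGroup.mk' P)
    · rw [if_pos hg]
    · rw [if_neg hg, if_neg]
      intro h
      apply hg
      show QuotientGroup.mk' P g ∈ L
      rw [QuotientGroup.mk'_apply, h]
      exact y.2
  rw [finsum_congr e2]
  have e3 := finsum_mem_eq_of_bijOn (M := F) (s := (Set.univ : Set ↥(L.comap (QuotientGroup.mk' P))))
    (t := ((L.comap (QuotientGroup.mk' P) : Subgroup Γ) : Set Γ))
    (f := fun x => @ite F (pr P L x = y) (Classical.propDecidable _) (z x) 0)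
    (g := fun g : Γ => if (g : Γ ⧸ P) = (y : Γ ⧸ P) then z g else 0) Subtype.val
    ⟨fun x _ => x.2, Subtype.val_injective.injOn, fun g hg => ⟨⟨g, hg⟩, trivial, rfl⟩⟩ ?_
  · rw [finsum_mem_univ] at e3
    refine (finsum_congr fun x => ?_).trans (e3.trans (finsum_congr fun x => finsum_congr fun _ => ?_))
    · rfl
    · rfl
  · intro x _
    have : pr P L x = y ↔ ((x : Γ) : Γ ⧸ P) = (y : Γ ⧸ P) :=
      ⟨fun h => congrArg Subtype.val h, fun h => Subtype.ext h⟩
    simp only [this]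

theorem subOf_eq (L Q : Subgroup (Γ ⧸ P)) :
    (Q.comap (QuotientGroup.mk' P)).subgroupOf (L.comap (QuotientGroup.mk' P)) =
      (Q.subgroupOf L).comap (pr P L) := by
  ext x
  rfl

theorem orb_quot (h1 : S_INF) (p : ℕ) {F : Type} [Field F]
    (red : integralClosure ℤ ℂ →+* F) (L J Q : Subgroup (Γ ⧸ P)) (z : Γ → F)
    (hz : ∀ g x : Γ, z (g * x * g⁻¹) = z x) (c : F) (L' : Subgroup Γ)
    (hL' : L' = L.comap (QuotientGroup.mk' P)) :
    Nat.card (Quot fun ξ ξ' : WtJ p red L' (Q.comap (QuotientGroup.mk' P)) z c =>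
      ∃ h ∈ J.comap (QuotientGroup.mk' P), CjF h ξ.1 ξ'.1) =
    Nat.card (Quot fun ξ ξ' : WtJ p red L Q (push P z) c => ∃ h ∈ J, CjF h ξ.1 ξ'.1) := by
  subst hL'
  symm
  have hfin : Finite L := inferInstance
  have hcv : ∀ χ : L → ℂ, IsIrreducibleCharacter χ →
      centralValue red (fun x => χ (pr P L x)) (fun x : ↥(L.comap (QuotientGroup.mk' P)) => z x) =
        centralValue red χ (fun y : L => push P z y) := by
    intro χ hχ
    have h := h1 F red _ _ (pr P L) χ (fun x : ↥(L.comap (QuotientGroup.mk' P)) => z x)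
      (pr_surj P L) hχ (fun g x => hz g x)
    rw [push_eq P L z] at h
    exact h
  have hwt : ∀ χ : L → ℂ,
      IsWt p ((Q.comap (QuotientGroup.mk' P)).subgroupOf (L.comap (QuotientGroup.mk' P)))
        (fun x => χ (pr P L x)) ↔ IsWt p (Q.subgroupOf L) χ := by
    intro χ
    rw [subOf_eq]
    exact wt_iff (pr P L) (pr_surj P L) p (Q.subgroupOf L) χ
  have hex : ∀ χ : ↥(L.comap (QuotientGroup.mk' P)) → ℂ,
      IsWt p ((Q.comap (QuotientGroup.mk' P)).subgroupOf (L.comap (QuotientGroup.mk' P))) χ →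
      ∃ χ' : L → ℂ, χ = fun x => χ' (pr P L x) := by
    intro χ h
    rw [subOf_eq] at h
    exact wt_exists (pr P L) (pr_surj P L) p (Q.subgroupOf L) h
  let f : WtJ p red L Q (push P z) c →
      WtJ p red (L.comap (QuotientGroup.mk' P)) (Q.comap (QuotientGroup.mk' P)) z c :=
    fun χ => ⟨fun x => χ.1 (pr P L x), (hwt χ.1).2 χ.2.1, (hcv χ.1 χ.2.1.irr).trans χ.2.2⟩
  have hf : Function.Bijective f := by
    constructor
    · intro χ χ' h
      apply Subtype.ext
      funext y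
      obtain ⟨x, rfl⟩ := pr_surj P L y
      exact congrFun (congrArg Subtype.val h) x
    · rintro ⟨χ, h2, h3⟩
      obtain ⟨χ', rfl⟩ := hex χ h2
      have h4 := (hwt χ').1 h2
      exact ⟨⟨χ', h4, (hcv χ' h4.irr).symm.trans h3⟩, rfl⟩
  refine Nat.card_congr (Quot.congr (Equiv.ofBijective f hf) fun χ χ' => ?_)
  show (∃ h ∈ J, CjF h χ.1 χ'.1) ↔
    ∃ h ∈ J.comap (QuotientGroup.mk' P), CjF h (fun x => χ.1 (pr P L x)) (fun x => χ'.1 (pr P L x))
  constructor
  · rintro ⟨h, hh, H⟩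
    obtain ⟨g, rfl⟩ := QuotientGroup.mk'_surjective P h
    refine ⟨g, hh, fun x y hxy => ?_⟩
    refine H (pr P L x) (pr P L y) ?_
    show QuotientGroup.mk' P (y : Γ) = QuotientGroup.mk' P g * QuotientGroup.mk' P (x : Γ) *
      (QuotientGroup.mk' P g)⁻¹
    rw [hxy, map_mul, map_mul, map_inv]
  · rintro ⟨g, hg, H⟩
    refine ⟨QuotientGroup.mk' P g, hg, fun x y hxy => ?_⟩
    obtain ⟨x₀, rfl⟩ := pr_surj P L x
    have hy : QuotientGroup.mk' P (g * (x₀ : Γ) * g⁻¹) = (y : Γ ⧸ P) := by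
      rw [hxy, map_mul, map_mul, map_inv]
      rfl
    have hmem : g * (x₀ : Γ) * g⁻¹ ∈ L.comap (QuotientGroup.mk' P) := by
      show QuotientGroup.mk' P (g * (x₀ : Γ) * g⁻¹) ∈ L
      rw [hy]
      exact y.2
    have h5 := H x₀ ⟨g * (x₀ : Γ) * g⁻¹, hmem⟩ rfl
    have h6 : pr P L ⟨g * (x₀ : Γ) * g⁻¹, hmem⟩ = y := Subtype.ext hy
    rw [← h6]
    exact h5

/-- there are no weights if `P` is not contained in `Q` -/
theorem orb_zero (h2 : S_WTN) (p : ℕ) [Fact p.Prime] {F : Type} [Field F]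
    (red : integralClosure ℤ ℂ →+* F) (hP : IsPGroup p P) (M Q : Subgroup Γ) (hPM : P ≤ M)
    (hQM : Q ≤ M) (hQ : IsPGroup p Q) (hPQ : ¬ P ≤ Q) (z : Γ → F) (c : F) :
    OrbW p red M (⊤ ⊓ Subgroup.normalizer (Q : Set Γ)) Q z c = 0 := by
  have hS : IsPGroup p ↥(Q ⊔ P) := IsPGroup.to_sup_of_normal_right hQ hP
  have hnil : Group.IsNilpotent ↥(Q ⊔ P) := hS.isNilpotent
  have hlt : Q.subgroupOf (Q ⊔ P) < ⊤ := by
    rw [lt_top_iff_ne_top, Ne, Subgroup.subgroupOf_eq_top]
    intro h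
    exact hPQ (le_sup_right.trans h)
  obtain ⟨x, hx1, hx2⟩ := SetLike.exists_of_lt
    (Group.normalizerCondition_of_isNilpotent (Q.subgroupOf (Q ⊔ P)) hlt)
  rw [Subgroup.mem_normalizer_iff] at hx1
  have hxN : (x : Γ) ∈ Subgroup.normalizer (Q : Set Γ) := by
    rw [Subgroup.mem_normalizer_iff]
    intro h
    constructor
    · intro hh
      exact (hx1 ⟨h, le_sup_left (a := Q) (b := P) hh⟩).1 hh
    · intro hh
      have h3 : h ∈ Q ⊔ P := by
        have h4 : h = (x : Γ)⁻¹ * ((x : Γ) * h * (x : Γ)⁻¹) * (x : Γ) := by group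
        rw [h4]
        exact (Q ⊔ P).mul_mem ((Q ⊔ P).mul_mem ((Q ⊔ P).inv_mem x.2)
          (le_sup_left (a := Q) (b := P) hh)) x.2
      exact (hx1 ⟨h, h3⟩).2 hh
  have hxM : (x : Γ) ∈ M := (sup_le hQM hPM) x.2
  have hno : ∀ χ : ↥(M ⊓ (⊤ ⊓ Subgroup.normalizer (Q : Set Γ))) → ℂ,
      ¬ IsWt p (Q.subgroupOf (M ⊓ (⊤ ⊓ Subgroup.normalizer (Q : Set Γ)))) χ := by
    intro χ
    refine h2 p _ _ ((Q ⊔ P).subgroupOf (M ⊓ (⊤ ⊓ Subgroup.normalizer (Q : Set Γ)))) χ ⟨?_⟩ ⟨?_⟩ ?_ ?_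
    · intro n hn g
      exact (Subgroup.mem_normalizer_iff.1 g.2.2.2 n).1 hn
    · intro n hn g
      have hn' : (n : Γ) ∈ Q ⊔ P := hn
      show (g : Γ) * (n : Γ) * (g : Γ)⁻¹ ∈ Q ⊔ P
      rw [← SetLike.mem_coe, Subgroup.mul_normal, Set.mem_mul] at hn'
      obtain ⟨q, hq, m, hm, hqm⟩ := hn'
      have h5 : (g : Γ) * (n : Γ) * (g : Γ)⁻¹ =
          ((g : Γ) * q * (g : Γ)⁻¹) * ((g : Γ) * m * (g : Γ)⁻¹) := by
        rw [← hqm]
        group
      rw [h5]
      refine (Q ⊔ P).mul_mem (le_sup_left (a := Q) (b := P) ?_) (le_sup_right (a := Q) (b := P) ?_)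
      · exact (Subgroup.mem_normalizer_iff.1 g.2.2.2 q).1 hq
      · exact Subgroup.Normal.conj_mem inferInstance m hm g
    · exact hS.comap_of_injective (M ⊓ (⊤ ⊓ Subgroup.normalizer (Q : Set Γ))).subtype
        Subtype.val_injective
    · rw [SetLike.lt_iff_le_and_exists]
      refine ⟨fun y hy => le_sup_left (a := Q) (b := P) hy, ⟨x, hxM, trivial, hxN⟩, x.2, hx2⟩
  unfold OrbW
  rw [Nat.card_eq_zero]
  refine Or.inl ⟨fun q => ?_⟩
  induction q using Quot.ind with
  | mk χ => exact hno χ.1 χ.2.1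

end

theorem nqo (h1 : S_INF) (h2 : S_WTN) : S_NQO := by
  intro p _ F _ _ red Γ _ _ G M P _ _ _ z hP hPM hGM hz c
  have hsurj := QuotientGroup.mk'_surjective P
  have hker : (QuotientGroup.mk' P).ker = P := QuotientGroup.ker_mk' P
  have hinj : Function.Injective (fun Q : Subgroup (Γ ⧸ P) => Q.comap (QuotientGroup.mk' P)) :=
    Subgroup.comap_injective hsurj
  have hMc : (M.map (QuotientGroup.mk' P)).comap (QuotientGroup.mk' P) = M := by
    rw [Subgroup.comap_map_eq, hker, sup_eq_left.2 hPM]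
  unfold WsK
  obtain ⟨W, hW⟩ : ∃ W : Subgroup Γ → ℤ, W = fun Q : Subgroup Γ =>
      if IsPGroup p Q ∧ Q ≤ ⊤ ∧ G ⊔ Q = M then
        (Nat.card ↥(⊤ ⊓ Subgroup.normalizer (Q : Set Γ)) : ℤ) *
          OrbW p red M (⊤ ⊓ Subgroup.normalizer (Q : Set Γ)) Q z c else 0 :=
    ⟨_, rfl⟩
  have hzero : ∀ Q : Subgroup Γ,
      Q ∉ Set.range (fun Q : Subgroup (Γ ⧸ P) => Q.comap (QuotientGroup.mk' P)) → W Q = 0 := by
    intro Q hQ
    rw [hW]
    show (if _ then _ else _) = _
    split_ifs with h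
    · have hPQ : ¬ P ≤ Q := by
        intro h3
        apply hQ
        refine ⟨Q.map (QuotientGroup.mk' P), ?_⟩
        show (Q.map (QuotientGroup.mk' P)).comap (QuotientGroup.mk' P) = Q
        rw [Subgroup.comap_map_eq, hker, sup_eq_left.2 h3]
      rw [orb_zero P h2 p red hP M Q hPM (by rw [← h.2.2]; exact le_sup_right) h.1 hPQ z c]
      simp
    · rfl
  have hval : ∀ Q : Subgroup (Γ ⧸ P), W (Q.comap (QuotientGroup.mk' P)) = Nat.card P *
      (if IsPGroup p Q ∧ Q ≤ ⊤ ∧ G.map (QuotientGroup.mk' P) ⊔ Q = M.map (QuotientGroup.mk' P) then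
        (Nat.card ↥(⊤ ⊓ Subgroup.normalizer (Q : Set (Γ ⧸ P))) : ℤ) *
          OrbW p red (M.map (QuotientGroup.mk' P)) (⊤ ⊓ Subgroup.normalizer (Q : Set (Γ ⧸ P))) Q
            (push P z) c else 0) := by
    intro Q
    rw [hW]
    show (if _ then _ else _) = _
    have c1 : IsPGroup p ↥(Q.comap (QuotientGroup.mk' P)) ↔ IsPGroup p Q := by
      constructor
      · intro h
        have h3 := h.map (QuotientGroup.mk' P)
        rwa [Subgroup.map_comap_eq_self_of_surjective hsurj] at h3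
      · intro h
        exact h.comap_of_ker_isPGroup (QuotientGroup.mk' P) (by rw [hker]; exact hP)
    have c2 : G ⊔ Q.comap (QuotientGroup.mk' P) = M ↔
        G.map (QuotientGroup.mk' P) ⊔ Q = M.map (QuotientGroup.mk' P) := by
      constructor
      · intro h
        have h3 := congrArg (Subgroup.map (QuotientGroup.mk' P)) h
        rwa [Subgroup.map_sup, Subgroup.map_comap_eq_self_of_surjective hsurj] at h3
      · intro h
        have h3 := congrArg (Subgroup.comap (QuotientGroup.mk' P)) h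
        rw [← Subgroup.comap_sup_eq _ _ _ hsurj, Subgroup.comap_map_eq, hker,
          hMc, sup_assoc] at h3
        have h4 : P ⊔ Q.comap (QuotientGroup.mk' P) = Q.comap (QuotientGroup.mk' P) := by
          rw [sup_eq_right]
          intro m hm
          rw [Subgroup.mem_comap, QuotientGroup.mk'_apply, (QuotientGroup.eq_one_iff m).2 hm]
          exact Q.one_mem
        rwa [h4] at h3
    have c3 : (⊤ ⊓ Subgroup.normalizer ((Q.comap (QuotientGroup.mk' P) : Subgroup Γ) : Set Γ)) =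
        (⊤ ⊓ Subgroup.normalizer (Q : Set (Γ ⧸ P))).comap (QuotientGroup.mk' P) := by
      rw [top_inf_eq, top_inf_eq, Subgroup.comap_normalizer_eq_of_le_range
        (by rw [MonoidHom.range_eq_top.2 hsurj]; exact le_top)]
    have key : ∀ J : Subgroup Γ, J = (⊤ ⊓ Subgroup.normalizer (Q : Set (Γ ⧸ P))).comap
        (QuotientGroup.mk' P) → (Nat.card J : ℤ) *
          OrbW p red M J (Q.comap (QuotientGroup.mk' P)) z c =
        Nat.card P * ((Nat.card ↥(⊤ ⊓ Subgroup.normalizer (Q : Set (Γ ⧸ P))) : ℤ) *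
          OrbW p red (M.map (QuotientGroup.mk' P)) (⊤ ⊓ Subgroup.normalizer (Q : Set (Γ ⧸ P))) Q
            (push P z) c) := by
      rintro _ rfl
      have e := orb_quot P h1 p red (M.map (QuotientGroup.mk' P) ⊓
        (⊤ ⊓ Subgroup.normalizer (Q : Set (Γ ⧸ P)))) (⊤ ⊓ Subgroup.normalizer (Q : Set (Γ ⧸ P))) Q
        z hz.conj c (M ⊓ (⊤ ⊓ Subgroup.normalizer (Q : Set (Γ ⧸ P))).comap (QuotientGroup.mk' P))
        (by
          have e := Subgroup.comap_inf (M.map (QuotientGroup.mk' P))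
            (⊤ ⊓ Subgroup.normalizer (Q : Set (Γ ⧸ P))) (QuotientGroup.mk' P)
          rw [hMc] at e
          exact e.symm)
      have e' : OrbW p red M ((⊤ ⊓ Subgroup.normalizer (Q : Set (Γ ⧸ P))).comap
          (QuotientGroup.mk' P)) (Q.comap (QuotientGroup.mk' P)) z c =
          OrbW p red (M.map (QuotientGroup.mk' P)) (⊤ ⊓ Subgroup.normalizer (Q : Set (Γ ⧸ P))) Q
            (push P z) c := e
      rw [e', card_comap _ hsurj, hker]
      push_cast
      ring
    by_cases hc : IsPGroup p Q ∧ Q ≤ ⊤ ∧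
        G.map (QuotientGroup.mk' P) ⊔ Q = M.map (QuotientGroup.mk' P)
    · rw [if_pos hc, if_pos ⟨c1.2 hc.1, le_top, c2.2 hc.2.2⟩]
      exact key _ c3
    · rw [if_neg hc, if_neg, mul_zero]
      rintro ⟨d1, -, d3⟩
      exact hc ⟨c1.1 d1, le_top, c2.1 d3⟩
  have e1 : ∑ᶠ Q : Subgroup Γ, W Q = ∑ᶠ Q : Subgroup (Γ ⧸ P), W (Q.comap (QuotientGroup.mk' P)) := by
    rw [← finsum_mem_range hinj (f := W)]
    refine finsum_congr fun Q => ?_
    rw [finsum_eq_if]
    split_ifs with h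
    · rfl
    · exact hzero Q h
  rw [hW] at e1
  rw [e1, ← hW]
  rw [finsum_congr hval, ← mul_finsum]

theorem NQO : S_NQO := nqo Pool.Agent.Y930.NV.inf wtn

end Pool.Agent.N717.EN
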