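import Pool.Agent.N585.WC.Defs

/-!
Project WC (helper585): images of the basic subgroups (helper717).
-/

set_option autoImplicit false

namespace Pool.Agent.N717.WC3

open Pool.Agent.N585.WC Set TopologicalSpace Filter
open scoped Topology

/-- restriction to a finite set of coordinates -/
def R {J : Type} (H : AddSubgroup (J → ZMod 2)) (F : Finset J) : ↥H →+ (F → ZMod 2) where
  toFun h j := h.1 j
  map_zero' := rfl
  map_add' _ _ := rfl

theorem fin_ker {J : Type} (H : AddSubgroup (J → ZMod 2)) (F : Finset J) :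
    (R H F).ker.FiniteIndex := by
  have : Finite (R H F).range := inferInstance
  exact AddSubgroup.finiteIndex_ker (R H F)

theorem fin_map {J : Type} (H : AddSubgroup (J → ZMod 2)) {K : Type} [AddGroup K]
    (f : ↥H →+ K) (hs : Function.Surjective f) (F : Finset J) :
    ((R H F).ker.map f).FiniteIndex := by
  have h1 := AddSubgroup.index_map_dvd (R H F).ker hs
  have h2 := (fin_ker H F).index_ne_zero
  exact ⟨fun h => h2 (by rw [h] at h1; exact zero_dvd_iff.1 h1)⟩

theorem stmBase : StmBase := by
  intro J H K _ _ _ _ f hf hs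
  have hfi : ∀ F : Finset J, (((R H F).ker.map f).topologicalClosure).FiniteIndex := by
    intro F
    have := fin_map H f hs F
    exact AddSubgroup.finiteIndex_of_le (AddSubgroup.le_topologicalClosure _)
  refine ⟨fun F => ((R H F).ker.map f).topologicalClosure, ?_, hfi, ?_, ?_⟩
  · intro F
    have := hfi F
    exact AddSubgroup.isOpen_of_isClosed_of_finiteIndex _
      (AddSubgroup.isClosed_topologicalClosure _)
  · intro F F' h
    refine AddSubgroup.topologicalClosure_mono (AddSubgroup.map_mono ?_)
    intro x hx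
    rw [AddMonoidHom.mem_ker] at hx ⊢
    funext j
    exact congrFun hx ⟨j.1, h j.2⟩
  · intro W hW h0
    obtain ⟨t, ht0, htc, htW⟩ := exists_mem_nhds_isClosed_subset (hW.mem_nhds h0)
    have h1 : f ⁻¹' t ∈ 𝓝 (0 : ↥H) := by
      refine hf.continuousAt.preimage_mem_nhds ?_
      rw [map_zero]
      exact ht0
    rw [nhds_subtype_eq_comap, mem_comap] at h1
    obtain ⟨s, hs1, hs2⟩ := h1
    rw [nhds_pi, Filter.mem_pi] at hs1
    obtain ⟨I, hI, u, hu, hus⟩ := hs1
    refine ⟨hI.toFinset, ?_⟩
    refine Subset.trans (closure_minimal ?_ htc) htW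
    rintro _ ⟨x, hx, rfl⟩
    refine hs2 (hus ?_)
    intro i hi
    have hx' : x ∈ (R H hI.toFinset).ker := hx
    rw [AddMonoidHom.mem_ker] at hx'
    have h2 : x.1 i = 0 := congrFun hx' ⟨i, hI.mem_toFinset.2 hi⟩
    rw [h2]
    exact mem_of_mem_nhds (hu i)

end Pool.Agent.N717.WC3
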