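import Pool.Agent.N652.OM.Stm
import Pool.Agent.N169.NS.TT

/-!
Project OM (helper652): property (T) of `EE (RR b)` (helper717).
-/

set_option autoImplicit false

namespace Pool.Agent.N717.OM_TTK

open Pool.Agent.N44.NS (el E3)
open Pool.Agent.W661.RC (HasT)
open Pool.Agent.N652.OM

noncomputable section

/-- property (T) passes to quotients -/
theorem hasT_surj {G H : Type} [Group G] [Group H] (f : G →* H) (hf : Function.Surjective f)
    (hG : HasT G) : HasT H := by
  intro X _ _ _ π hπ
  obtain ⟨v, hv0, hv⟩ := hG X (π.comp f) (by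
    intro K ε hε
    classical
    obtain ⟨v, h1, h2⟩ := hπ (K.image f) ε hε
    exact ⟨v, h1, fun g hg => h2 (f g) (Finset.mem_image_of_mem f hg)⟩)
  refine ⟨v, hv0, fun h => ?_⟩
  obtain ⟨g, rfl⟩ := hf h
  exact hv g

variable (b : Bool)

/-- the inclusion of the line `b` -/
def ff (w : ℤ × Unit) : ℤ × Bool := (w.1, b)

theorem ff_inj : Function.Injective (ff b) := by
  rintro ⟨i, u⟩ ⟨j, v⟩ h
  have h1 : i = j := congrArg Prod.fst h
  rw [h1]

/-- extension by zero -/
def io : Vc Unit →ₗ[F] Vc Bool := Finsupp.lmapDomain F F (ff b)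

/-- restriction to the line `b` -/
def pr : Vc Bool →ₗ[F] Vc Unit := Finsupp.lcomapDomain (ff b) (ff_inj b)

theorem pr_apply (v : Vc Bool) (w : ℤ × Unit) : pr b v w = v (ff b w) := rfl

theorem io_apply (v : Vc Unit) (w : ℤ × Unit) : io b v (ff b w) = v w :=
  Finsupp.mapDomain_apply (ff_inj b) v w

theorem io_apply' (v : Vc Unit) (j : ℤ) : io b v (j, !b) = 0 := by
  refine Finsupp.mapDomain_of_notMem_range v _ ?_
  rintro ⟨w, hw⟩
  have h1 : b = !b := congrArg Prod.snd hw
  cases b <;> simp at h1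

theorem pr_io (v : Vc Unit) : pr b (io b v) = v := by
  ext w
  rw [pr_apply, io_apply]

theorem bcases (b' : Bool) : b' = b ∨ b' = !b := by
  cases b <;> cases b' <;> simp

theorem io_pr_of (u : Vc Bool) (h : ∀ j : ℤ, u (j, !b) = 0) : io b (pr b u) = u := by
  ext ⟨j, b'⟩
  rcases bcases b b' with rfl | rfl
  · exact io_apply b' _ (j, ())
  · rw [io_apply', h]

theorem pr_single (j : ℤ) : pr b (Finsupp.single (j, b) 1) = Finsupp.single (j, ()) 1 := by
  have h : (Finsupp.single (j, b) 1 : Vc Bool) = io b (Finsupp.single (j, ()) 1) := by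
    unfold io
    rw [Finsupp.lmapDomain_apply, Finsupp.mapDomain_single]
    rfl
  rw [h, pr_io]

theorem io_single (j : ℤ) : io b (Finsupp.single (j, ()) 1) = Finsupp.single (j, b) 1 := by
  unfold io
  rw [Finsupp.lmapDomain_apply, Finsupp.mapDomain_single]
  rfl

theorem pr_single' (j : ℤ) : pr b (Finsupp.single (j, !b) 1) = 0 := by
  ext ⟨i, u⟩
  rw [pr_apply, Finsupp.zero_apply, Finsupp.single_apply, if_neg]
  intro h
  have h1 : (!b) = b := congrArg Prod.snd h
  cases b <;> simp at h1

theorem io_sh (j : ℤ) (p : LaurentPolynomial F) : io b (sh () j p) = sh b j p := by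
  unfold io sh
  rw [Finsupp.lmapDomain_apply, ← Finsupp.mapDomain_comp]
  rfl

theorem pr_sh (j : ℤ) (p : LaurentPolynomial F) : pr b (sh b j p) = sh () j p := by
  rw [← io_sh, pr_io]

/-- the corner embedding -/
def cb : MM Unit →ₙ+* MM Bool where
  toFun a := (io b).comp (a.comp (pr b))
  map_zero' := by
    refine LinearMap.ext fun v => ?_
    simp
  map_add' a a' := by
    refine LinearMap.ext fun v => ?_
    simp
  map_mul' a a' := by
    refine LinearMap.ext fun v => ?_
    rw [Module.End.mul_apply]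
    simp only [LinearMap.comp_apply, Module.End.mul_apply]
    rw [pr_io]

theorem cb_apply (a : MM Unit) (v : Vc Bool) : cb b a v = io b (a (pr b v)) := rfl

theorem cb_mem {a : MM Unit} (ha : a ∈ Sg Unit) : cb b a ∈ RR b := by
  obtain ⟨p, N, hp⟩ := ha
  refine ⟨⟨fun b' => if b' = b then p () else 0, N, ?_⟩, ?_, ?_⟩
  · intro b' j hj
    rw [cb_apply]
    rcases bcases b b' with rfl | rfl
    · rw [pr_single, hp () j hj, io_sh]
      beta_reduce
      rw [if_pos rfl]
    · rw [pr_single', map_zero, map_zero]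
      beta_reduce
      rw [if_neg (by simp)]
      unfold sh
      rw [AddMonoidAlgebra.coeff_zero, Finsupp.mapDomain_zero]
  · intro j
    rw [cb_apply, pr_single', map_zero, map_zero]
  · intro v j
    rw [cb_apply, io_apply']

theorem cb_surj {x : MM Bool} (hx : x ∈ RR b) : ∃ a ∈ Sg Unit, cb b a = x := by
  obtain ⟨⟨p, N, hp⟩, h1, h2⟩ := hx
  refine ⟨(pr b).comp (x.comp (io b)), ⟨fun _ => p b, N, ?_⟩, ?_⟩
  · intro _ j hj
    rw [LinearMap.comp_apply, LinearMap.comp_apply, io_single, hp b j hj, pr_sh]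
  · have h3 : ∀ v, x (io b (pr b v)) = x v := by
      intro v
      induction v using Finsupp.induction_linear with
      | zero => simp
      | add f g hf hg => rw [map_add, map_add, map_add, map_add, hf, hg]
      | single w c =>
        obtain ⟨j, b'⟩ := w
        have e : (Finsupp.single (j, b') c : Vc Bool) = c • Finsupp.single (j, b') 1 := by
          rw [Finsupp.smul_single, smul_eq_mul, mul_one]
        rw [e, map_smul, map_smul, map_smul, map_smul]
        congr 1
        rcases bcases b b' with rfl | rfl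
        · rw [pr_single, io_single]
        · rw [pr_single', map_zero, map_zero, h1]
    refine LinearMap.ext fun v => ?_
    rw [cb_apply, LinearMap.comp_apply, LinearMap.comp_apply, h3, io_pr_of b _ (h2 v)]

/-- the corner embedding on the algebra of operators with a symbol -/
def ca : Sg Unit →ₙ+* MM Bool := (cb b).comp
  { toFun := fun a => (a : MM Unit)
    map_zero' := rfl
    map_add' := fun _ _ => rfl
    map_mul' := fun _ _ => rfl }

theorem ca_apply (a : Sg Unit) : ca b a = cb b (a : MM Unit) := rfl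

theorem ca_mul (a a' : Sg Unit) : ca b (a * a') = ca b a * ca b a' := map_mul (ca b) a a'

theorem ca_one_one (v : Vc Bool) : ca b 1 (ca b 1 v) = ca b 1 v := by
  rw [← Module.End.mul_apply, ← ca_mul, one_mul]

/-- the complementary projection -/
def cc : MM Bool := LinearMap.id - ca b 1

theorem cc_apply (v : Vc Bool) : cc b v = v - ca b 1 v := rfl

theorem cc_mul (a : Sg Unit) : cc b * ca b a = 0 := by
  refine LinearMap.ext fun v => ?_
  rw [Module.End.mul_apply, cc_apply, ← Module.End.mul_apply, ← ca_mul, one_mul, sub_self]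
  rfl

theorem mul_cc (a : Sg Unit) : ca b a * cc b = 0 := by
  refine LinearMap.ext fun v => ?_
  rw [Module.End.mul_apply, cc_apply, map_sub, ← Module.End.mul_apply, ← ca_mul, mul_one, sub_self]
  rfl

theorem add_cc : ca b 1 + cc b = 1 := by
  refine LinearMap.ext fun v => ?_
  rw [LinearMap.add_apply, cc_apply, add_sub_cancel]
  rfl

theorem cc_cc : cc b * cc b = cc b := by
  refine LinearMap.ext fun v => ?_
  rw [Module.End.mul_apply, cc_apply, cc_apply, map_sub, ca_one_one, sub_self, sub_zero]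

/-- the homomorphism of matrix rings -/
def Ph (X : Matrix (Fin 3) (Fin 3) (Sg Unit)) : Matrix (Fin 3) (Fin 3) (MM Bool) :=
  X.map (ca b) + Matrix.scalar (Fin 3) (cc b)

theorem map_mul' (X Y : Matrix (Fin 3) (Fin 3) (Sg Unit)) :
    (X * Y).map (ca b) = X.map (ca b) * Y.map (ca b) := by
  refine Matrix.ext fun i j => ?_
  rw [Matrix.map_apply, Matrix.mul_apply, Matrix.mul_apply, map_sum]
  refine Finset.sum_congr rfl fun k _ => ?_
  rw [ca_mul, Matrix.map_apply, Matrix.map_apply]

theorem s_mul (X : Matrix (Fin 3) (Fin 3) (Sg Unit)) :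
    Matrix.scalar (Fin 3) (cc b) * X.map (ca b) = 0 := by
  refine Matrix.ext fun i j => ?_
  rw [Matrix.scalar_apply, Matrix.diagonal_mul, Matrix.map_apply, cc_mul, Matrix.zero_apply]

theorem mul_s (X : Matrix (Fin 3) (Fin 3) (Sg Unit)) :
    X.map (ca b) * Matrix.scalar (Fin 3) (cc b) = 0 := by
  refine Matrix.ext fun i j => ?_
  rw [Matrix.scalar_apply, Matrix.mul_diagonal, Matrix.map_apply, mul_cc, Matrix.zero_apply]

theorem one_map : (1 : Matrix (Fin 3) (Fin 3) (Sg Unit)).map (ca b) =
    Matrix.scalar (Fin 3) (ca b 1) := by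
  refine Matrix.ext fun i j => ?_
  rw [Matrix.map_apply, Matrix.scalar_apply, Matrix.one_apply, Matrix.diagonal_apply]
  split_ifs
  · rfl
  · exact map_zero (ca b)

/-- the homomorphism of matrix rings, as a homomorphism of monoids -/
def PhM : Matrix (Fin 3) (Fin 3) (Sg Unit) →* Matrix (Fin 3) (Fin 3) (MM Bool) where
  toFun := Ph b
  map_one' := by
    unfold Ph
    rw [one_map, ← map_add, add_cc, map_one]
  map_mul' X Y := by
    unfold Ph
    rw [mul_add, add_mul, add_mul, s_mul, mul_s, add_zero, zero_add, map_mul', ← map_mul, cc_cc]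

theorem Ph_el (i j : Fin 3) (h : i ≠ j) (a : Sg Unit) :
    Units.map (PhM b) (el i j h a) = el i j h (ca b a) := by
  apply Units.ext
  change Ph b (1 + Matrix.single i j a) = 1 + Matrix.single i j (ca b a)
  unfold Ph
  have h1 : (1 + Matrix.single i j a : Matrix (Fin 3) (Fin 3) (Sg Unit)).map (ca b) =
      (1 : Matrix (Fin 3) (Fin 3) (Sg Unit)).map (ca b) + Matrix.single i j (ca b a) := by
    rw [Matrix.map_add _ (fun x y => map_add (ca b) x y), Matrix.map_single]
  rw [h1, one_map, add_right_comm, ← map_add, add_cc, map_one]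

theorem map_E3 : (E3 (Sg Unit)).map (Units.map (PhM b)) = EE (RR b) := by
  unfold E3 EE
  rw [MonoidHom.map_closure]
  congr 1
  ext g
  constructor
  · rintro ⟨_, ⟨i, j, h, a, rfl⟩, rfl⟩
    exact ⟨i, j, h, ca b a, cb_mem b a.2, Ph_el b i j h a⟩
  · rintro ⟨i, j, h, x, hx, rfl⟩
    obtain ⟨a, ha, rfl⟩ := cb_surj b hx
    exact ⟨el i j h ⟨a, ha⟩, ⟨i, j, h, ⟨a, ha⟩, rfl⟩, Ph_el b i j h ⟨a, ha⟩⟩

theorem main (hG : S_GEN) : S_TTK := by
  intro b
  obtain ⟨g, hg⟩ := hG
  have hT : HasT (E3 (Sg Unit)) := Pool.Agent.N169.NS.t_TT F (by rw [ZMod.card]; norm_num)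
    (Sg Unit) g hg
  rw [← map_E3 b]
  exact hasT_surj ((Units.map (PhM b)).subgroupMap (E3 (Sg Unit)))
    (MonoidHom.subgroupMap_surjective _ _) hT

end

end Pool.Agent.N717.OM_TTK
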