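import Pool.Agent.N661.BH.Stm
import Pool.Agent.N426.BRQUART
import Pool.Agent.Y265.HY.N5

/-!
# Project BH (MP_4fa179_mp), part BH/QUARTH

The hyperbolic version of `Pool/Agent/N426/BRQUART.lean`.
-/

set_option autoImplicit false
open MeasureTheory Filter Topology Complex
open scoped ContDiff

namespace Pool.Agent.N717.BHQUARTH

open Pool.Agent.N661.BR (Bal KV)
open Pool.Agent.N661.BH
open Pool.Agent.W745.RW (lap dx dy TF CC GG eps)
open Pool.Agent.Y265.HY (SY FW FD FM hyp_fourth hyp_sys FW_eq)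
open Pool.Agent.TH294.RS (TF.cint TF.zero TF.mulc)
open Pool.Agent.N426.BRQUART (sgn_sq sgn_add sgn_two sgn_neg sum_eps sum_GG)

noncomputable section

/-- the quadratic expression -/
def QF (lam : ℝ) (u : ℂ → ℝ) (v : ℤ →₀ ℝ) (l : ℤ) (z : ℂ) : ℂ :=
  ∑ j ∈ v.support, (v j : ℂ) * (FW lam u j z * FW lam u (2 * l - j) z)

/-- the square of `QF` -/
lemma normsq_QF {lam : ℝ} {u : ℂ → ℝ} {z : ℂ}
    (hc : ∀ k : ℤ, (starRingEnd ℂ) (FW lam u k z) = (-1) ^ k.natAbs * FW lam u (-k) z)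
    (v : ℤ →₀ ℝ) (l : ℤ) :
    ((‖QF lam u v l z‖ ^ 2 : ℝ) : ℂ) = ∑ i ∈ v.support, ∑ j ∈ v.support,
      ((v i : ℂ) * (v j : ℂ)) *
      (FW lam u i z * FW lam u (2 * l - i) z * FW lam u (-j) z * FW lam u (j - 2 * l) z) := by
  have h1 : ((‖QF lam u v l z‖ ^ 2 : ℝ) : ℂ) =
      QF lam u v l z * (starRingEnd ℂ) (QF lam u v l z) := by
    rw [Complex.mul_conj, Complex.normSq_eq_norm_sq]
  rw [h1]
  unfold QF
  rw [map_sum, Finset.sum_mul_sum]
  refine Finset.sum_congr rfl fun i _ => Finset.sum_congr rfl fun j _ => ?_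
  rw [map_mul, map_mul, Complex.conj_ofReal, hc j, hc (2 * l - j)]
  have e1 : -(2 * l - j) = j - 2 * l := by ring
  have e2 : (-1 : ℂ) ^ (2 * l - j).natAbs = (-1) ^ j.natAbs := by
    rw [sub_eq_add_neg, sgn_add, sgn_two, sgn_neg, one_mul]
  rw [e1, e2]
  have := sgn_sq j
  linear_combination ((v i : ℂ) * (v j : ℂ) * (FW lam u i z * FW lam u (2 * l - i) z *
    FW lam u (-j) z * FW lam u (j - 2 * l) z)) * this

/-- the fourth moments for the Lebesgue measure -/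
def FL (lam : ℝ) (u : ℂ → ℝ) (φ : ℂ → ℝ) (a b c d : ℤ) : ℂ :=
  ∫ z, (φ z : ℂ) * (FW lam u a z * FW lam u b z * FW lam u c z * FW lam u d z)

/-- the integral of the square of `QF` -/
lemma int_QF {B : Set ℂ} {lam : ℝ} {u : ℂ → ℝ}
    (hc : ∀ k : ℤ, ∀ z ∈ B,
      (starRingEnd ℂ) (FW lam u k z) = (-1) ^ k.natAbs * FW lam u (-k) z)
    (co : ∀ k : ℤ, ContinuousOn (FW lam u k) B) {φ : ℂ → ℝ} (hφ : TF B φ) (v : ℤ →₀ ℝ) (l : ℤ) :
    ((∫ z, φ z * ‖QF lam u v l z‖ ^ 2 : ℝ) : ℂ) = ∑ i ∈ v.support, ∑ j ∈ v.support,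
      ((v i : ℂ) * (v j : ℂ)) * FL lam u φ i (2 * l - i) (-j) (j - 2 * l) := by
  have e1 : ((∫ z, φ z * ‖QF lam u v l z‖ ^ 2 : ℝ) : ℂ) =
      ∫ z, ∑ i ∈ v.support, ∑ j ∈ v.support, ((v i : ℂ) * (v j : ℂ)) * ((φ z : ℂ) *
        (FW lam u i z * FW lam u (2 * l - i) z * FW lam u (-j) z *
          FW lam u (j - 2 * l) z)) := by
    rw [← integral_complex_ofReal]
    congr 1
    funext z
    by_cases hz : z ∈ B
    · rw [Complex.ofReal_mul, normsq_QF (fun k => hc k z hz) v l, Finset.mul_sum]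
      refine Finset.sum_congr rfl fun i _ => ?_
      rw [Finset.mul_sum]
      refine Finset.sum_congr rfl fun j _ => ?_
      ring
    · have h0 : φ z = 0 := TF.zero hφ hz
      simp [h0]
  have hi : ∀ i j : ℤ, Integrable (fun z => ((v i : ℂ) * (v j : ℂ)) * ((φ z : ℂ) *
        (FW lam u i z * FW lam u (2 * l - i) z * FW lam u (-j) z *
          FW lam u (j - 2 * l) z))) := fun i j =>
    (TF.cint hφ ((((co _).mul (co _)).mul (co _)).mul (co _))).const_mul _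
  rw [e1, integral_finsetSum _ (fun i _ => integrable_finsetSum _ fun j _ => hi i j)]
  refine Finset.sum_congr rfl fun i _ => ?_
  rw [integral_finsetSum _ (fun j _ => hi i j)]
  refine Finset.sum_congr rfl fun j _ => ?_
  rw [integral_const_mul]
  rfl

/-- BH/QUARTH -/
theorem QUARTH : S_QUARTH := by
  intro Ω hΩ hU lam hpos hlam u hu heq hqe φ hφ _ v hv l
  -- quantum ergodicity in terms of integrals over the plane
  have hqe' : ∀ φ, TF Ω φ → ∀ k : ℕ, Tendsto (fun n => ∫ z, ((φ z / z.im ^ 2 : ℝ) : ℂ) *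
      ((u n z : ℂ) * (FD (lam n))^[k] (fun w => (u n w : ℂ)) z)) atTop
      (𝓝 (if k = 0 then ((∫ z, φ z / z.im ^ 2 : ℝ) : ℂ) else 0)) := by
    intro φ hφ k
    have h1 := hqe φ hφ k
    have h2 : area Ω (fun z => (φ z : ℂ)) = ((∫ z, φ z / z.im ^ 2 : ℝ) : ℂ) := by
      unfold area
      rw [setIntegral_eq_integral_of_forall_compl_eq_zero, ← integral_complex_ofReal]
      · congr 1
        funext z
        push_cast
        ring
      · intro z hz
        change ((1 / z.im ^ 2 : ℝ) : ℂ) * (φ z : ℂ) = 0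
        rw [TF.zero hφ hz]
        simp
    rw [h2] at h1
    refine h1.congr fun n => ?_
    unfold area
    rw [setIntegral_eq_integral_of_forall_compl_eq_zero]
    · congr 1
      funext z
      change ((1 / z.im ^ 2 : ℝ) : ℂ) * ((φ z : ℂ) *
        ((u n z : ℂ) * (FD (lam n))^[k] (fun w => (u n w : ℂ)) z)) = _
      push_cast
      ring
    · intro z hz
      change ((1 / z.im ^ 2 : ℝ) : ℂ) * ((φ z : ℂ) *
        ((u n z : ℂ) * (FD (lam n))^[k] (fun w => (u n w : ℂ)) z)) = 0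
      rw [TF.zero hφ hz]
      simp
  -- conjugates and continuity
  have S := (hyp_sys hΩ (fun z hz => hU hz) hpos hlam hu heq hqe').1
  have hc : ∀ n (k : ℤ), ∀ z ∈ Ω,
      (starRingEnd ℂ) (FW (lam n) (u n) k z) = (-1) ^ k.natAbs * FW (lam n) (u n) (-k) z := by
    intro n k z hz
    have := S.cj k n z hz
    rw [FW_eq lam u, FW_eq lam u] at this
    exact this
  have co : ∀ n (k : ℤ), ContinuousOn (FW (lam n) (u n) k) Ω := by
    intro n k
    have h1 := (S.bd k).co n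
    refine h1.congr fun z _ => ?_
    exact (FW_eq lam u k n z).symm
  -- the test function
  have sy : ContDiffOn ℝ ∞ (fun z : ℂ => z.im ^ 2) Ω := (imCLM.contDiff.pow 2).contDiffOn
  have tφ : TF Ω (fun z => φ z * z.im ^ 2) := TF.mulc hΩ hφ sy
  have hφe : ∀ z, φ z * z.im ^ 2 / z.im ^ 2 = φ z := by
    intro z
    by_cases hz : z ∈ Ω
    · have h1 : (0 : ℝ) < z.im := hU hz
      field_simp
    · rw [TF.zero hφ hz]; simp
  have key := (hyp_fourth hΩ (fun z hz => hU hz) hpos hlam hu heq hqe' tφ).2.1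
  have hFM : ∀ n (a b c d : ℤ), FM (lam n) (u n) (fun z => φ z * z.im ^ 2) a b c d =
      FL (lam n) (u n) φ a b c d := by
    intro n a b c d
    unfold FM FL
    congr 1
    funext z
    rw [hφe]
  simp only [hφe, hFM] at key
  obtain ⟨J, hJ⟩ : ∃ J : ℂ, J = ((∫ z, φ z : ℝ) : ℂ) := ⟨_, rfl⟩
  rw [← hJ] at key
  have h1 : Tendsto (fun n => ∑ i ∈ v.support, ∑ j ∈ v.support, ((v i : ℂ) * (v j : ℂ)) *
      (FL (lam n) (u n) φ i (2 * l - i) (-j) (j - 2 * l) -
        eps i (2 * l - i) (-j) (j - 2 * l) * FL (lam n) (u n) φ (2 * 0) 0 0 0)) atTop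
      (𝓝 (∑ i ∈ v.support, ∑ j ∈ v.support, ((v i : ℂ) * (v j : ℂ)) *
        ((GG i (2 * l - i) (-j) (j - 2 * l) - eps i (2 * l - i) (-j) (j - 2 * l) *
          GG (2 * 0) 0 0 0) * J))) :=
    tendsto_finsetSum _ fun i _ => tendsto_finsetSum _ fun j _ =>
      (key i (2 * l - i) (-j) (j - 2 * l) 0 (by ring)).const_mul _
  have e2 : (∑ i ∈ v.support, ∑ j ∈ v.support, ((v i : ℂ) * (v j : ℂ)) *
        ((GG i (2 * l - i) (-j) (j - 2 * l) - eps i (2 * l - i) (-j) (j - 2 * l) *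
          GG (2 * 0) 0 0 0) * J)) = ((KV v l * ∫ z, φ z : ℝ) : ℂ) := by
    have e3 : (∑ i ∈ v.support, ∑ j ∈ v.support, ((v i : ℂ) * (v j : ℂ)) *
        ((GG i (2 * l - i) (-j) (j - 2 * l) - eps i (2 * l - i) (-j) (j - 2 * l) *
          GG (2 * 0) 0 0 0) * J)) =
        (∑ i ∈ v.support, ∑ j ∈ v.support, ((v i : ℂ) * (v j : ℂ)) *
          GG i (2 * l - i) (-j) (j - 2 * l)) * J -
        (∑ i ∈ v.support, ∑ j ∈ v.support, ((v i : ℂ) * (v j : ℂ)) *
          eps i (2 * l - i) (-j) (j - 2 * l)) * (GG (2 * 0) 0 0 0 * J) := by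
      rw [Finset.sum_mul, Finset.sum_mul, ← Finset.sum_sub_distrib]
      refine Finset.sum_congr rfl fun i _ => ?_
      rw [Finset.sum_mul, Finset.sum_mul, ← Finset.sum_sub_distrib]
      refine Finset.sum_congr rfl fun j _ => ?_
      ring
    rw [e3, sum_GG hv, sum_eps hv, hJ]
    push_cast
    ring
  have e4 : ∀ n, (∑ i ∈ v.support, ∑ j ∈ v.support, ((v i : ℂ) * (v j : ℂ)) *
      (FL (lam n) (u n) φ i (2 * l - i) (-j) (j - 2 * l) -
        eps i (2 * l - i) (-j) (j - 2 * l) * FL (lam n) (u n) φ (2 * 0) 0 0 0)) =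
      ((∫ z, φ z * ‖QF (lam n) (u n) v l z‖ ^ 2 : ℝ) : ℂ) := by
    intro n
    have e5 : (∑ i ∈ v.support, ∑ j ∈ v.support, ((v i : ℂ) * (v j : ℂ)) *
        (FL (lam n) (u n) φ i (2 * l - i) (-j) (j - 2 * l) -
          eps i (2 * l - i) (-j) (j - 2 * l) * FL (lam n) (u n) φ (2 * 0) 0 0 0)) =
        (∑ i ∈ v.support, ∑ j ∈ v.support, ((v i : ℂ) * (v j : ℂ)) *
          FL (lam n) (u n) φ i (2 * l - i) (-j) (j - 2 * l)) -
        (∑ i ∈ v.support, ∑ j ∈ v.support, ((v i : ℂ) * (v j : ℂ)) *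
          eps i (2 * l - i) (-j) (j - 2 * l)) * FL (lam n) (u n) φ (2 * 0) 0 0 0 := by
      rw [Finset.sum_mul, ← Finset.sum_sub_distrib]
      refine Finset.sum_congr rfl fun i _ => ?_
      rw [Finset.sum_mul, ← Finset.sum_sub_distrib]
      refine Finset.sum_congr rfl fun j _ => ?_
      ring
    rw [e5, sum_eps hv, zero_mul, sub_zero, int_QF (hc n) (co n) hφ]
  rw [e2] at h1
  have h2 := h1.congr e4
  have h3 : Tendsto (fun n => ∫ z, φ z * ‖QF (lam n) (u n) v l z‖ ^ 2) atTop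
      (𝓝 (KV v l * ∫ z, φ z)) := by
    have h4 := (Complex.continuous_re.tendsto _).comp h2
    rw [Complex.ofReal_re] at h4
    exact h4.congr fun n => Complex.ofReal_re _
  exact h3

end

end Pool.Agent.N717.BHQUARTH
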