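import Pool.Agent.N661.BR.Base

/-!
# BR/FQ: the second moment of `QQ`
-/

set_option autoImplicit false

open MeasureTheory Filter Topology Complex ProbabilityTheory

namespace Pool.Agent.N717.BRFQ

open Pool.Agent.W745.RW (W)
open Pool.Agent.N661.BR
open Pool.Agent.Y265.RW (sy rr)

theorem norm_sy (α : ℝ) : ‖sy α‖ = 1 := by
  unfold sy
  rw [norm_mul, Complex.norm_I, one_mul, Complex.norm_exp]
  simp

theorem cf_neg (ν : Measure ℝ) (j : ℤ) : cf ν (-j) = (starRingEnd ℂ) (cf ν j) := by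
  unfold cf
  rw [← integral_conj]
  refine integral_congr_ae (Eventually.of_forall fun α => ?_)
  change sy α ^ (-j) = (starRingEnd ℂ) (sy α ^ j)
  rw [map_zpow₀, ← Complex.inv_eq_conj (norm_sy α), zpow_neg, inv_zpow]

theorem cf_zero (ν : Measure ℝ) [IsProbabilityMeasure ν] : cf ν 0 = 1 := by
  unfold cf
  simp

theorem cf_mul (ν : Measure ℝ) (j : ℤ) : cf ν j * cf ν (-j) = ((‖cf ν j‖ ^ 2 : ℝ) : ℂ) := by
  rw [cf_neg, Complex.mul_conj']
  push_cast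
  rfl

theorem norm_cf_neg (ν : Measure ℝ) (j : ℤ) : ‖cf ν (-j)‖ = ‖cf ν j‖ := by
  rw [cf_neg, Complex.norm_conj]

theorem sgn_even {a : ℤ} (ha : Even a) : ((-1 : ℂ)) ^ a.natAbs = 1 :=
  (Int.natAbs_even.2 ha).neg_one_pow

theorem BB_even (ν : Measure ℝ) {a b : ℤ} (ha : Even a) (hb : Even b) :
    BB ν a b = cf ν (a + b) := by
  unfold BB
  rw [sgn_even ha, sgn_even hb]
  norm_num

/-- the indices -/
def xx : ℕ → ℤ
  | 0 => 0
  | i + 1 => 2 * (i : ℤ)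

/-- the weights -/
noncomputable def ww (N : ℕ) : ℕ → ℝ
  | 0 => 1
  | _ + 1 => -(1 / (N : ℝ))

theorem xx_even (i : ℕ) : Even (xx i) := by
  cases i with
  | zero => exact ⟨0, rfl⟩
  | succ i => exact ⟨i, by change 2 * (i : ℤ) = i + i; ring⟩

theorem ww_sum {N : ℕ} (hN : 1 ≤ N) : ∑ i ∈ Finset.range (N + 1), ww N i = 0 := by
  rw [Finset.sum_range_succ']
  change ∑ i ∈ Finset.range N, -(1 / (N : ℝ)) + 1 = 0
  rw [Finset.sum_const, Finset.card_range, nsmul_eq_mul]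
  have : (N : ℝ) ≠ 0 := by
    have : (0 : ℝ) < N := by exact_mod_cast hN
    exact this.ne'
  field_simp
  norm_num

theorem QQ_eq (h : ℝ) (f : ℂ → ℝ) (N : ℕ) (l : ℤ) (z : ℂ) : QQ h f N l z =
    ∑ i ∈ Finset.range (N + 1), (ww N i : ℂ) * (W h f (xx i) z * W h f (2 * l - xx i) z) := by
  rw [Finset.sum_range_succ']
  unfold QQ
  have h1 : ∀ i ∈ Finset.range N, ((ww N (i + 1) : ℝ) : ℂ) *
      (W h f (xx (i + 1)) z * W h f (2 * l - xx (i + 1)) z) =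
      -((1 / (N : ℂ)) * (W h f (2 * (i : ℤ)) z * W h f (2 * l - 2 * (i : ℤ)) z)) := by
    intro i _
    change ((-(1 / (N : ℝ)) : ℝ) : ℂ) * _ = _
    push_cast
    change -(1 / (N : ℂ)) * (W h f (2 * (i : ℤ)) z * W h f (2 * l - 2 * (i : ℤ)) z) = _
    ring
  rw [Finset.sum_congr rfl h1, Finset.sum_neg_distrib, ← Finset.mul_sum]
  have h2 : ((ww N 0 : ℝ) : ℂ) * (W h f (xx 0) z * W h f (2 * l - xx 0) z) =
      W h f 0 z * W h f (2 * l) z := by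
    change ((1 : ℝ) : ℂ) * (W h f 0 z * W h f (2 * l - 0) z) = _
    rw [sub_zero, Complex.ofReal_one, one_mul]
  rw [h2]
  ring

/-- the products of four derivatives -/
noncomputable def PP (l : ℤ) (i k : ℕ) (f : MW) : ℂ :=
  W 1 f (xx i) 0 * W 1 f (2 * l - xx i) 0 * W 1 f (-xx k) 0 * W 1 f (xx k - 2 * l) 0

theorem sq_eq (f : MW) (N : ℕ) (l : ℤ) : ((‖QQ 1 f N l 0‖ ^ 2 : ℝ) : ℂ) =
    ∑ i ∈ Finset.range (N + 1), ∑ k ∈ Finset.range (N + 1),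
      (ww N i : ℂ) * (ww N k : ℂ) * PP l i k f := by
  have h1 : ((‖QQ 1 f N l 0‖ ^ 2 : ℝ) : ℂ) = QQ 1 f N l 0 * (starRingEnd ℂ) (QQ 1 f N l 0) := by
    rw [Complex.mul_conj']
    push_cast
    rfl
  rw [h1, QQ_eq, map_sum, Finset.sum_mul_sum]
  refine Finset.sum_congr rfl fun i _ => Finset.sum_congr rfl fun k _ => ?_
  have hk : Even (2 * l - xx k) := (even_two_mul l).sub (xx_even k)
  rw [map_mul, map_mul, Complex.conj_ofReal, conj_W, conj_W, sgn_even (xx_even k), sgn_even hk,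
    neg_sub]
  unfold PP
  ring

theorem main (μ : Measure MW) (m : ℝ) (ν : Measure ℝ) [IsProbabilityMeasure ν]
    (H : ∀ a : Fin 4 → ℤ, Integrable (fun f : MW => ∏ i, W 1 f (a i) 0) μ ∧
      ∫ f : MW, ∏ i, W 1 f (a i) 0 ∂μ = (m : ℂ) ^ 2 * (BB ν (a 0) (a 1) * BB ν (a 2) (a 3) +
      BB ν (a 0) (a 2) * BB ν (a 1) (a 3) + BB ν (a 0) (a 3) * BB ν (a 1) (a 2))) (l : ℤ)
    (i k : ℕ) : Integrable (PP l i k) μ ∧ ∫ f : MW, PP l i k f ∂μ =
      ((m ^ 2 * (‖cf ν (2 * l)‖ ^ 2 + (‖cf ν (xx i - xx k)‖ ^ 2 +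
        ‖cf ν (xx i + xx k - 2 * l)‖ ^ 2)) : ℝ) : ℂ) := by
  obtain ⟨h1, h2⟩ := H ![xx i, 2 * l - xx i, -xx k, xx k - 2 * l]
  have h3 : (fun f : MW => ∏ r, W 1 f ((![xx i, 2 * l - xx i, -xx k, xx k - 2 * l] : Fin 4 → ℤ) r)
      0) = PP l i k := by
    funext f
    rw [Fin.prod_univ_four]
    rfl
  rw [h3] at h1
  refine ⟨h1, ?_⟩
  rw [h3] at h2
  rw [h2]
  have e0 := xx_even i
  have e1 : Even (2 * l - xx i) := (even_two_mul l).sub e0
  have e2 : Even (-xx k) := (xx_even k).neg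
  have e3 : Even (xx k - 2 * l) := (xx_even k).sub (even_two_mul l)
  change (m : ℂ) ^ 2 * (BB ν (xx i) (2 * l - xx i) * BB ν (-xx k) (xx k - 2 * l) +
      BB ν (xx i) (-xx k) * BB ν (2 * l - xx i) (xx k - 2 * l) +
      BB ν (xx i) (xx k - 2 * l) * BB ν (2 * l - xx i) (-xx k)) = _
  rw [BB_even ν e0 e1, BB_even ν e2 e3, BB_even ν e0 e2, BB_even ν e1 e3, BB_even ν e0 e3,
    BB_even ν e1 e2]
  have s1 : xx i + (2 * l - xx i) = 2 * l := by ring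
  have s2 : -xx k + (xx k - 2 * l) = -(2 * l) := by ring
  have s3 : xx i + -xx k = xx i - xx k := by ring
  have s4 : 2 * l - xx i + (xx k - 2 * l) = -(xx i - xx k) := by ring
  have s5 : xx i + (xx k - 2 * l) = xx i + xx k - 2 * l := by ring
  have s6 : 2 * l - xx i + -xx k = -(xx i + xx k - 2 * l) := by ring
  rw [s1, s2, s3, s4, s5, s6, cf_mul, cf_mul, cf_mul]
  push_cast
  ring

theorem FN_eq (ν : Measure ℝ) [IsProbabilityMeasure ν] {N : ℕ} (hN : 1 ≤ N) (l : ℤ) :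
    ∑ i ∈ Finset.range (N + 1), ∑ k ∈ Finset.range (N + 1),
      ww N i * ww N k * (‖cf ν (2 * l)‖ ^ 2 + (‖cf ν (xx i - xx k)‖ ^ 2 +
        ‖cf ν (xx i + xx k - 2 * l)‖ ^ 2)) = FN (cf ν) N l := by
  obtain ⟨g, hg⟩ : ∃ g : ℤ → ℝ, g = fun j => ‖cf ν j‖ ^ 2 := ⟨_, rfl⟩
  have gn : ∀ j, g (-j) = g j := by
    intro j
    rw [hg]
    change ‖cf ν (-j)‖ ^ 2 = ‖cf ν j‖ ^ 2
    rw [norm_cf_neg]
  have g0 : g 0 = 1 := by
    rw [hg]
    change ‖cf ν 0‖ ^ 2 = 1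
    rw [cf_zero]; norm_num
  have hF : FN (cf ν) N l = 1 + g (2 * l) -
    2 / (N : ℝ) * (∑ j ∈ Finset.range N, (g (2 * (j : ℤ)) + g (2 * (j : ℤ) - 2 * l))) +
    1 / (N : ℝ) ^ 2 * (∑ i ∈ Finset.range N, ∑ j ∈ Finset.range N,
      (g (2 * ((i : ℤ) - (j : ℤ))) + g (2 * ((i : ℤ) + (j : ℤ)) - 2 * l))) := by
    rw [hg]; rfl
  have hL : ∑ i ∈ Finset.range (N + 1), ∑ k ∈ Finset.range (N + 1),
      ww N i * ww N k * (‖cf ν (2 * l)‖ ^ 2 + (‖cf ν (xx i - xx k)‖ ^ 2 +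
        ‖cf ν (xx i + xx k - 2 * l)‖ ^ 2)) =
      ∑ i ∈ Finset.range (N + 1), ∑ k ∈ Finset.range (N + 1),
      ww N i * ww N k * (g (2 * l) + (g (xx i - xx k) + g (xx i + xx k - 2 * l))) := by
    rw [hg]
  rw [hF, hL]
  have h1 : ∑ i ∈ Finset.range (N + 1), ∑ k ∈ Finset.range (N + 1),
      ww N i * ww N k * (g (2 * l) + (g (xx i - xx k) + g (xx i + xx k - 2 * l))) =
      (∑ i ∈ Finset.range (N + 1), ww N i) * (∑ k ∈ Finset.range (N + 1), ww N k) * g (2 * l) +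
      ∑ i ∈ Finset.range (N + 1), ∑ k ∈ Finset.range (N + 1),
        ww N i * ww N k * (g (xx i - xx k) + g (xx i + xx k - 2 * l)) := by
    rw [Finset.sum_mul_sum, Finset.sum_mul, ← Finset.sum_add_distrib]
    refine Finset.sum_congr rfl fun i _ => ?_
    rw [Finset.sum_mul, ← Finset.sum_add_distrib]
    exact Finset.sum_congr rfl fun k _ => by ring
  rw [h1, ww_sum hN, zero_mul, zero_mul, zero_add, Finset.sum_range_succ']
  have h2 : ∀ i : ℕ, ∑ k ∈ Finset.range (N + 1),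
      ww N i * ww N k * (g (xx i - xx k) + g (xx i + xx k - 2 * l)) =
      ∑ k ∈ Finset.range N, ww N i * -(1 / (N : ℝ)) *
        (g (xx i - 2 * (k : ℤ)) + g (xx i + 2 * (k : ℤ) - 2 * l)) +
      ww N i * (g (xx i) + g (xx i - 2 * l)) := by
    intro i
    rw [Finset.sum_range_succ']
    congr 1
    change ww N i * 1 * (g (xx i - 0) + g (xx i + 0 - 2 * l)) = _
    rw [sub_zero, add_zero, mul_one]
  rw [Finset.sum_congr rfl fun i _ => h2 (i + 1), h2 0, Finset.sum_add_distrib]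
  have e1 : ∀ i : ℕ, ww N (i + 1) = -(1 / (N : ℝ)) := fun _ => rfl
  have e2 : ww N 0 = 1 := rfl
  have e3 : ∀ i : ℕ, xx (i + 1) = 2 * (i : ℤ) := fun _ => rfl
  have e4 : xx 0 = 0 := rfl
  simp only [e1, e2, e3, e4, zero_sub, zero_add, one_mul, gn, g0]
  have e5 : ∀ i k : ℕ, g (2 * (i : ℤ) - 2 * (k : ℤ)) = g (2 * ((i : ℤ) - (k : ℤ))) := fun i k => by
    rw [mul_sub]
  have e6 : ∀ i k : ℕ, g (2 * (i : ℤ) + 2 * (k : ℤ) - 2 * l) =
      g (2 * ((i : ℤ) + (k : ℤ)) - 2 * l) := fun i k => by rw [mul_add]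
  simp only [e5, e6, ← Finset.mul_sum]
  ring

open Pool.Agent.N661.BR in
/-- BR/FQ -/
theorem FQ : S_FQ := by
  intro μ _ m ν _ H N hN l
  have hint : Integrable (fun f : MW => ((‖QQ 1 f N l 0‖ ^ 2 : ℝ) : ℂ)) μ := by
    have h1 : (fun f : MW => ((‖QQ 1 f N l 0‖ ^ 2 : ℝ) : ℂ)) = fun f : MW =>
        ∑ i ∈ Finset.range (N + 1), ∑ k ∈ Finset.range (N + 1),
          (ww N i : ℂ) * (ww N k : ℂ) * PP l i k f := by
      funext f
      exact sq_eq f N l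
    rw [h1]
    exact integrable_finsetSum _ fun i _ => integrable_finsetSum _ fun k _ =>
      ((main μ m ν H l i k).1).const_mul _
  refine ⟨?_, ?_⟩
  · have h2 := hint.re
    exact h2
  · apply Complex.ofReal_injective
    have h3 : ((∫ f : MW, ‖QQ 1 f N l 0‖ ^ 2 ∂μ : ℝ) : ℂ) =
        ∫ f : MW, ((‖QQ 1 f N l 0‖ ^ 2 : ℝ) : ℂ) ∂μ := integral_ofReal.symm
    rw [h3]
    have h4 : ∫ f : MW, ((‖QQ 1 f N l 0‖ ^ 2 : ℝ) : ℂ) ∂μ = ∫ f : MW,
        ∑ i ∈ Finset.range (N + 1), ∑ k ∈ Finset.range (N + 1),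
          (ww N i : ℂ) * (ww N k : ℂ) * PP l i k f ∂μ :=
      integral_congr_ae (Eventually.of_forall fun f => sq_eq f N l)
    rw [h4, integral_finsetSum _ fun i _ => integrable_finsetSum _ fun k _ =>
      ((main μ m ν H l i k).1).const_mul _]
    have h5 : ∀ i ∈ Finset.range (N + 1), ∫ f : MW, ∑ k ∈ Finset.range (N + 1),
        (ww N i : ℂ) * (ww N k : ℂ) * PP l i k f ∂μ = ∑ k ∈ Finset.range (N + 1),
        ((m ^ 2 * (ww N i * ww N k * (‖cf ν (2 * l)‖ ^ 2 + (‖cf ν (xx i - xx k)‖ ^ 2 +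
        ‖cf ν (xx i + xx k - 2 * l)‖ ^ 2))) : ℝ) : ℂ) := by
      intro i _
      rw [integral_finsetSum _ fun k _ => ((main μ m ν H l i k).1).const_mul _]
      refine Finset.sum_congr rfl fun k _ => ?_
      rw [integral_const_mul, (main μ m ν H l i k).2]
      push_cast
      ring
    rw [Finset.sum_congr rfl h5, ← FN_eq ν hN l, Finset.mul_sum]
    simp only [Finset.mul_sum, Complex.ofReal_sum]

end Pool.Agent.N717.BRFQ
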