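import Pool.Agent.N661.QB.Stm

/-!
Project QB (helper661), piece DER2: elementary analysis of systems of functions (helper717).
-/

set_option autoImplicit false
open MeasureTheory Filter Topology Complex

namespace Pool.Agent.N717.QBDER2

open Pool.Agent.N661.QB (Sys LL S_DER2)

noncomputable section

/-- one step -/
def st (a b : ℂ) (P : ℕ → ℤ → ℝ → ℂ) (n : ℕ) (k : ℤ) (t : ℝ) : ℂ :=
  a * P n (k + 1) t + b * P n (k - 1) t

theorem sys_st {P P' : ℕ → ℤ → ℝ → ℂ} {h : ℕ → ℝ} {a b : ℂ} (hS : Sys P P' h a b) :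
    Sys (st a b P) (st a b P') h a b := by
  obtain ⟨h1, h2⟩ := hS
  refine ⟨fun k => ?_, fun k => ?_⟩
  · obtain ⟨C, hC⟩ := h1 (k + 1)
    obtain ⟨D, hD⟩ := h1 (k - 1)
    refine ⟨‖a‖ * C + ‖b‖ * D, ?_⟩
    filter_upwards [hC, hD] with n hn hn' t ht
    refine (norm_add_le _ _).trans (add_le_add ?_ ?_)
    · rw [norm_mul]
      exact mul_le_mul_of_nonneg_left (hn t ht) (norm_nonneg _)
    · rw [norm_mul]
      exact mul_le_mul_of_nonneg_left (hn' t ht) (norm_nonneg _)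
  · obtain ⟨C, hC⟩ := h2 (k + 1)
    obtain ⟨D, hD⟩ := h2 (k - 1)
    refine ⟨‖a‖ * C + ‖b‖ * D, ?_⟩
    filter_upwards [hC, hD] with n hn hn' t ht
    obtain ⟨d1, e1⟩ := hn t ht
    obtain ⟨d2, e2⟩ := hn' t ht
    refine ⟨(d1.const_mul a).add (d2.const_mul b), ?_⟩
    have e : st a b P' n k t - (a * st a b P n (k + 1) t + b * st a b P n (k - 1) t) =
        a * (P' n (k + 1) t - (a * P n (k + 1 + 1) t + b * P n (k + 1 - 1) t)) +
        b * (P' n (k - 1) t - (a * P n (k - 1 + 1) t + b * P n (k - 1 - 1) t)) := by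
      unfold st
      ring
    rw [e]
    refine (norm_add_le _ _).trans ?_
    rw [norm_mul, norm_mul, add_mul, mul_assoc, mul_assoc]
    exact add_le_add (mul_le_mul_of_nonneg_left e1 (norm_nonneg _))
      (mul_le_mul_of_nonneg_left e2 (norm_nonneg _))

theorem bd_der {P P' : ℕ → ℤ → ℝ → ℂ} {h : ℕ → ℝ} {a b : ℂ} (hS : Sys P P' h a b)
    (hlim : Tendsto h atTop (𝓝 0)) (k : ℤ) :
    ∃ C : ℝ, ∀ᶠ n in atTop, ∀ t ∈ Set.Icc (0 : ℝ) 1, HasDerivAt (P n k) (P' n k t) t ∧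
      ‖P' n k t‖ ≤ C := by
  obtain ⟨h1, -⟩ := sys_st hS
  obtain ⟨C, hC⟩ := h1 k
  obtain ⟨D, hD⟩ := hS.2 k
  refine ⟨C + |D|, ?_⟩
  have h3 : ∀ᶠ n in atTop, |h n| < 1 := by
    have h4 : Tendsto (fun n => |h n|) atTop (𝓝 0) := by
      have := hlim.abs
      rwa [abs_zero] at this
    exact h4.eventually (gt_mem_nhds one_pos)
  filter_upwards [hC, hD, h3] with n hn hn' hn3 t ht
  obtain ⟨d1, e1⟩ := hn' t ht
  refine ⟨d1, ?_⟩
  have h5 := hn t ht
  have h6 : D * h n ≤ |D| := by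
    calc D * h n ≤ |D * h n| := le_abs_self _
      _ = |D| * |h n| := abs_mul _ _
      _ ≤ |D| * 1 := mul_le_mul_of_nonneg_left hn3.le (abs_nonneg _)
      _ = |D| := mul_one _
  have e : P' n k t = st a b P n k t +
      (P' n k t - (a * P n (k + 1) t + b * P n (k - 1) t)) := by
    unfold st
    ring
  rw [e]
  exact (norm_add_le _ _).trans (add_le_add h5 (e1.trans h6))

/-- the mean value inequality -/
theorem mvt {D0 D0' D1 D1' : ℝ → ℂ} {e L s t : ℝ}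
    (h0 : ∀ x ∈ Set.Icc (0 : ℝ) 1, HasDerivAt D0 (D0' x) x)
    (h01 : ∀ x ∈ Set.Icc (0 : ℝ) 1, ‖D0' x - D1 x‖ ≤ e)
    (h1 : ∀ x ∈ Set.Icc (0 : ℝ) 1, HasDerivAt D1 (D1' x) x)
    (hL : ∀ x ∈ Set.Icc (0 : ℝ) 1, ‖D1' x‖ ≤ L) (hs : s ∈ Set.Icc (0 : ℝ) 1)
    (ht : t ∈ Set.Icc (0 : ℝ) 1) :
    ‖D0 t - D0 s - (t - s : ℝ) * D1 s‖ ≤ (e + L * |t - s|) * |t - s| := by
  have hsub : Set.uIcc s t ⊆ Set.Icc (0 : ℝ) 1 := Set.ordConnected_Icc.uIcc_subset hs ht
  have hL0 : 0 ≤ L := (norm_nonneg _).trans (hL s hs)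
  have hlip : ∀ x ∈ Set.uIcc s t, ‖D1 x - D1 s‖ ≤ L * |t - s| := by
    intro x hx
    have h2 := (convex_Icc (0 : ℝ) 1).norm_image_sub_le_of_norm_hasDerivWithin_le
      (fun y hy => (h1 y hy).hasDerivWithinAt) hL hs (hsub hx)
    refine h2.trans (mul_le_mul_of_nonneg_left ?_ hL0)
    exact Set.abs_sub_left_of_mem_uIcc hx
  have h2 := (convex_uIcc s t).norm_image_sub_le_of_norm_hasDerivWithin_le
    (f := fun x => D0 x - ((x - s : ℝ) : ℂ) * D1 s) (f' := fun x => D0' x - D1 s)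
    (C := e + L * |t - s|) (x := s) (y := t) ?_ ?_ Set.left_mem_uIcc Set.right_mem_uIcc
  · have e1 : D0 t - ((t - s : ℝ) : ℂ) * D1 s - (D0 s - ((s - s : ℝ) : ℂ) * D1 s) =
        D0 t - D0 s - (t - s : ℝ) * D1 s := by
      rw [sub_self]
      push_cast
      ring
    rw [e1] at h2
    exact h2
  · intro x hx
    refine HasDerivAt.hasDerivWithinAt ?_
    have h3 : HasDerivAt (fun x : ℝ => ((x - s : ℝ) : ℂ) * D1 s) (1 * D1 s) x := by
      refine HasDerivAt.mul_const ?_ _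
      have h4 : HasDerivAt (fun x : ℝ => x - s) 1 x := (hasDerivAt_id x).sub_const s
      have h5 := h4.ofReal_comp
      rwa [ofReal_one] at h5
    rw [one_mul] at h3
    exact (h0 x (hsub hx)).sub h3
  · intro x hx
    have e2 : D0' x - D1 s = (D0' x - D1 x) + (D1 x - D1 s) := by ring
    rw [e2]
    exact (norm_add_le _ _).trans (add_le_add (h01 x (hsub hx)) (hlip x hx))

/-- the main step -/
theorem step {P P' Q Q' : ℕ → ℤ → ℝ → ℂ} {h : ℕ → ℝ} {a b c d : ℂ}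
    (hlim : Tendsto h atTop (𝓝 0)) (hP : Sys P P' h a b)
    (hQ : Sys Q Q' h c d)
    (h0 : ∀ t ∈ Set.Icc (0 : ℝ) 1, Tendsto (fun n => P n 0 t - Q n 0 t) atTop (𝓝 0)) :
    ∀ s ∈ Set.Icc (0 : ℝ) 1,
      Tendsto (fun n => st a b P n 0 s - st c d Q n 0 s) atTop (𝓝 0) := by
  intro s hs
  obtain ⟨C1, hC1⟩ := hP.2 0
  obtain ⟨C2, hC2⟩ := hQ.2 0
  obtain ⟨L1, hL1⟩ := bd_der (sys_st hP) hlim 0
  obtain ⟨L2, hL2⟩ := bd_der (sys_st hQ) hlim 0
  rw [Metric.tendsto_atTop']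
  intro ε hε
  set L : ℝ := |L1 + L2| + 1 with hL
  have hLp : 0 < L := by positivity
  set δ : ℝ := min (1 / 2) (ε / (4 * L)) with hδ
  have hδ0 : 0 < δ := by positivity
  have hδ1 : δ ≤ 1 / 2 := min_le_left _ _
  have hδ2 : L * δ ≤ ε / 4 := by
    have h1 : δ ≤ ε / (4 * L) := min_le_right _ _
    calc L * δ ≤ L * (ε / (4 * L)) := mul_le_mul_of_nonneg_left h1 hLp.le
      _ = ε / 4 := by field_simp
  obtain ⟨t, ht, hts⟩ : ∃ t ∈ Set.Icc (0 : ℝ) 1, |t - s| = δ := by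
    rcases le_total s (1 / 2) with h | h
    · refine ⟨s + δ, ⟨by linarith [hs.1], by linarith⟩, ?_⟩
      rw [add_sub_cancel_left, abs_of_pos hδ0]
    · refine ⟨s - δ, ⟨by linarith, by linarith [hs.2]⟩, ?_⟩
      have : s - δ - s = -δ := by ring
      rw [this, abs_neg, abs_of_pos hδ0]
  have hh : ∀ᶠ n in atTop, (C1 + C2) * h n < ε / 4 := by
    have h4 : Tendsto (fun n => (C1 + C2) * h n) atTop (𝓝 0) := by
      have := hlim.const_mul (C1 + C2)
      rwa [mul_zero] at this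
    exact h4.eventually (gt_mem_nhds (by positivity))
  have hsm : ∀ x ∈ Set.Icc (0 : ℝ) 1, ∀ᶠ n in atTop, ‖P n 0 x - Q n 0 x‖ < ε * δ / 4 := by
    intro x hx
    have h4 := (h0 x hx).norm
    rw [norm_zero] at h4
    exact h4.eventually (gt_mem_nhds (by positivity))
  have hev := (((((hC1.and hC2).and hL1).and hL2).and hh).and (hsm s hs)).and (hsm t ht)
  obtain ⟨N, hN⟩ := eventually_atTop.1 hev
  refine ⟨N, fun n hn => ?_⟩
  obtain ⟨⟨⟨⟨⟨⟨k1, k2⟩, k3⟩, k4⟩, k5⟩, k6⟩, k7⟩ := hN n hn.le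
  rw [dist_zero_right]
  have key := mvt (D0 := fun x => P n 0 x - Q n 0 x) (D0' := fun x => P' n 0 x - Q' n 0 x)
    (D1 := fun x => st a b P n 0 x - st c d Q n 0 x)
    (D1' := fun x => st a b P' n 0 x - st c d Q' n 0 x) (e := (C1 + C2) * h n) (L := L1 + L2)
    (fun x hx => (k1 x hx).1.sub (k2 x hx).1) (fun x hx => by
      have e : (P' n 0 x - Q' n 0 x) - (st a b P n 0 x - st c d Q n 0 x) =
          (P' n 0 x - (a * P n (0 + 1) x + b * P n (0 - 1) x)) -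
          (Q' n 0 x - (c * Q n (0 + 1) x + d * Q n (0 - 1) x)) := by
        unfold st
        ring
      rw [e, add_mul]
      exact (norm_sub_le _ _).trans (add_le_add (k1 x hx).2 (k2 x hx).2))
    (fun x hx => (k3 x hx).1.sub (k4 x hx).1)
    (fun x hx => (norm_sub_le _ _).trans (add_le_add (k3 x hx).2 (k4 x hx).2)) hs ht
  set Δ : ℂ := st a b P n 0 s - st c d Q n 0 s with hΔ
  have h5 : ‖((t - s : ℝ) : ℂ) * Δ‖ = δ * ‖Δ‖ := by
    rw [norm_mul, norm_real, Real.norm_eq_abs, hts]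
  have h6 : δ * ‖Δ‖ ≤ ‖P n 0 t - Q n 0 t‖ + ‖P n 0 s - Q n 0 s‖ +
      ((C1 + C2) * h n + (L1 + L2) * |t - s|) * |t - s| := by
    rw [← h5]
    have e : ((t - s : ℝ) : ℂ) * Δ = ((P n 0 t - Q n 0 t) - (P n 0 s - Q n 0 s)) -
        ((P n 0 t - Q n 0 t) - (P n 0 s - Q n 0 s) - ((t - s : ℝ) : ℂ) * Δ) := by ring
    rw [e]
    exact (norm_sub_le _ _).trans (add_le_add (norm_sub_le _ _) key)
  rw [hts] at h6
  have h7 : (L1 + L2) * δ ≤ ε / 4 := by
    refine le_trans (mul_le_mul_of_nonneg_right ?_ hδ0.le) hδ2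
    rw [hL]
    linarith [le_abs_self (L1 + L2)]
  have h8 : δ * ‖Δ‖ < δ * ε := by
    have h9 : ((C1 + C2) * h n + (L1 + L2) * δ) * δ ≤ (ε / 4 + ε / 4) * δ :=
      mul_le_mul_of_nonneg_right (by linarith) hδ0.le
    nlinarith
  exact lt_of_mul_lt_mul_left h8 hδ0.le

/-- Pascal -/
theorem LL_succ (a b : ℂ) (j : ℕ) (P : ℤ → ℝ → ℂ) :
    LL a b (j + 1) P = LL a b j (fun k t => a * P (k + 1) t + b * P (k - 1) t) := by
  unfold LL
  set f : ℕ → ℂ := fun i => a ^ i * b ^ (j + 1 - i) * P (2 * i - (j + 1)) 0 with hf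
  have h1 : ∑ i ∈ Finset.range (j + 1 + 1), ((j + 1).choose i : ℂ) * a ^ i * b ^ (j + 1 - i) *
      P (2 * i - (j + 1 : ℕ)) 0 = ∑ i ∈ Finset.range (j + 1 + 1), ((j + 1).choose i : ℂ) * f i := by
    refine Finset.sum_congr rfl fun i _ => ?_
    simp only [hf]
    push_cast
    ring
  have h2 : ∑ i ∈ Finset.range (j + 1), (j.choose i : ℂ) * a ^ i * b ^ (j - i) *
      (a * P (2 * i - j + 1) 0 + b * P (2 * i - j - 1) 0) =
      ∑ i ∈ Finset.range (j + 1), (j.choose i : ℂ) * f (i + 1) +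
      ∑ i ∈ Finset.range (j + 1), (j.choose i : ℂ) * f i := by
    rw [← Finset.sum_add_distrib]
    refine Finset.sum_congr rfl fun i hi => ?_
    have hij : i ≤ j := Nat.lt_succ_iff.1 (Finset.mem_range.1 hi)
    simp only [hf]
    have e1 : j + 1 - (i + 1) = j - i := by omega
    have e2 : j + 1 - i = (j - i) + 1 := by omega
    have e3 : (2 * ((i + 1 : ℕ) : ℤ) - (j + 1)) = 2 * i - j + 1 := by push_cast; ring
    have e4 : (2 * (i : ℤ) - (j + 1)) = 2 * i - j - 1 := by ring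
    rw [e1, e2, e3, e4]
    ring
  rw [h1, h2, Finset.sum_range_succ']
  have h3 : ∑ i ∈ Finset.range (j + 1), (j.choose i : ℂ) * f i =
      ∑ i ∈ Finset.range (j + 1), (j.choose (i + 1) : ℂ) * f (i + 1) + (j.choose 0 : ℂ) * f 0 := by
    rw [← Finset.sum_range_succ' (fun i => (j.choose i : ℂ) * f i) (j + 1),
      Finset.sum_range_succ _ (j + 1), Nat.choose_succ_self, Nat.cast_zero, zero_mul, add_zero]
  rw [h3, ← add_assoc, ← Finset.sum_add_distrib]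
  congr 1
  · refine Finset.sum_congr rfl fun i _ => ?_
    rw [Nat.choose_succ_succ]
    push_cast
    ring
  · rw [Nat.choose_zero_right, Nat.choose_zero_right]

theorem DER2 : S_DER2 := by
  intro P P' Q Q' h a b c d _ hlim hP hQ h0 j
  induction j generalizing P P' Q Q' with
  | zero =>
    have h1 := h0 0 ⟨le_rfl, zero_le_one⟩
    refine h1.congr fun n => ?_
    unfold LL
    rw [Finset.sum_range_one, Finset.sum_range_one]
    simp
  | succ j ih =>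
    have h1 := ih (st a b P) (st a b P') (st c d Q) (st c d Q') (sys_st hP) (sys_st hQ)
      (step hlim hP hQ h0)
    refine h1.congr fun n => ?_
    rw [LL_succ, LL_succ]
    rfl

end

end Pool.Agent.N717.QBDER2
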