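import Pool.Agent.N979.CAP.Stm

/-!
Project CAP (helper979), task LIP (helper717).
-/

set_option autoImplicit false

namespace Pool.Agent.N717.CAP_LIP

open Real Pool.Agent.N979.CAP

theorem sq_lip {c v w : ℝ} (hc : 0 < c) (hv : c ^ 2 ≤ v) (hw : c ^ 2 ≤ w) :
    |√v - √w| ≤ |v - w| / (2 * c) := by
  have hv0 : 0 ≤ v := (sq_nonneg c).trans hv
  have hw0 : 0 ≤ w := (sq_nonneg c).trans hw
  have h1 : c ≤ √v := (Real.le_sqrt' hc).2 hv
  have h2 : c ≤ √w := (Real.le_sqrt' hc).2 hw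
  have h3 : (√v - √w) * (√v + √w) = v - w := by
    have e : (√v - √w) * (√v + √w) = √v ^ 2 - √w ^ 2 := by ring
    rw [e, Real.sq_sqrt hv0, Real.sq_sqrt hw0]
  rw [← h3, abs_mul, abs_of_pos (by linarith : 0 < √v + √w), le_div_iff₀ (by positivity)]
  exact mul_le_mul_of_nonneg_left (by linarith) (abs_nonneg _)

theorem inv_lip {c v w : ℝ} (hc : 0 < c) (hv : c ^ 2 ≤ v) (hw : c ^ 2 ≤ w) :
    |1 / √v - 1 / √w| ≤ |v - w| / (2 * c ^ 3) := by
  have h1 : c ≤ √v := (Real.le_sqrt' hc).2 hv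
  have h2 : c ≤ √w := (Real.le_sqrt' hc).2 hw
  have hv0 : 0 < √v := hc.trans_le h1
  have hw0 : 0 < √w := hc.trans_le h2
  have e : 1 / √v - 1 / √w = (√w - √v) / (√v * √w) := by
    field_simp
  rw [e, abs_div, abs_of_pos (mul_pos hv0 hw0)]
  have h3 : |√w - √v| ≤ |v - w| / (2 * c) := by
    rw [abs_sub_comm]
    exact sq_lip hc hv hw
  have h4 : c * c ≤ √v * √w := mul_le_mul h1 h2 hc.le hv0.le
  calc |√w - √v| / (√v * √w) ≤ (|v - w| / (2 * c)) / (c * c) :=
        div_le_div₀ (by positivity) h3 (by positivity) h4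
    _ = |v - w| / (2 * c ^ 3) := by
        rw [div_div]
        congr 1
        ring

theorem prod_lip {n n' g g' A B M G L : ℝ} (h1 : |n - n'| ≤ A * L) (h2 : |g - g'| ≤ B * L)
    (h3 : |n'| ≤ M) (h4 : |g| ≤ G) (hA : 0 ≤ A) (hB : 0 ≤ B) (hL : 0 ≤ L) :
    |n * g - n' * g'| ≤ (A * G + M * B) * L := by
  have e : n * g - n' * g' = (n - n') * g + n' * (g - g') := by ring
  rw [e]
  refine (abs_add_le _ _).trans ?_
  rw [abs_mul, abs_mul]
  have i1 : |n - n'| * |g| ≤ (A * L) * G :=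
    mul_le_mul h1 h4 (abs_nonneg _) (by positivity)
  have i2 : |n'| * |g - g'| ≤ M * (B * L) :=
    mul_le_mul h3 h2 (abs_nonneg _) ((abs_nonneg _).trans h3)
  calc |n - n'| * |g| + |n'| * |g - g'| ≤ (A * L) * G + M * (B * L) := add_le_add i1 i2
    _ = (A * G + M * B) * L := by ring

theorem lin_lip (x y x' y' p q : ℝ) (hp : |p| ≤ 1) (hq : |q| ≤ 1) :
    |(x * p + y * q) - (x' * p + y' * q)| ≤ |x - x'| + |y - y'| := by
  have e : (x * p + y * q) - (x' * p + y' * q) = (x - x') * p + (y - y') * q := by ring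
  rw [e]
  refine (abs_add_le _ _).trans (add_le_add ?_ ?_)
  · rw [abs_mul]
    exact mul_le_of_le_one_right (abs_nonneg _) hp
  · rw [abs_mul]
    exact mul_le_of_le_one_right (abs_nonneg _) hq

theorem abs_le_one_of {x y s : ℝ} (hs : s < 1) (hs0 : 0 < s) (h : x ^ 2 + y ^ 2 ≤ s ^ 2) :
    |x| ≤ 1 ∧ |y| ≤ 1 := by
  have h1 : s ^ 2 ≤ 1 := by nlinarith
  constructor
  · rw [← sq_le_one_iff_abs_le_one]
    nlinarith [sq_nonneg y]
  · rw [← sq_le_one_iff_abs_le_one]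
    nlinarith [sq_nonneg x]

theorem sq_sub_lip {a b : ℝ} (ha : |a| ≤ 1) (hb : |b| ≤ 1) : |a ^ 2 - b ^ 2| ≤ 2 * |a - b| := by
  have e : a ^ 2 - b ^ 2 = (a - b) * (a + b) := by ring
  rw [e, abs_mul, mul_comm]
  refine mul_le_mul_of_nonneg_right ?_ (abs_nonneg _)
  exact (abs_add_le a b).trans (by linarith)

theorem main : S_LIP := by
  intro s hs0 hs1
  set c : ℝ := √(1 - s ^ 2) with hcdef
  have hs2 : 0 < 1 - s ^ 2 := by nlinarith
  have hc : 0 < c := Real.sqrt_pos.2 hs2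
  have hc2 : c ^ 2 = 1 - s ^ 2 := Real.sq_sqrt hs2.le
  have hc1 : c ≤ 1 := by
    rw [hcdef]
    refine Real.sqrt_le_one.2 ?_
    nlinarith [sq_nonneg s]
  have hu1 : 1 ≤ 1 / c := by rw [le_div_iff₀ hc]; linarith
  have hc3 : c ^ 3 ≤ c := by nlinarith [mul_pos hc hc]
  have hc31 : c ^ 3 ≤ 1 := hc3.trans hc1
  have hc3p : 0 < c ^ 3 := by positivity
  have hk1 : (1 : ℝ) ≤ 1 / c ^ 3 := by rw [le_div_iff₀ hc3p]; linarith
  have hk2 : 1 / c ≤ 1 / c ^ 3 := one_div_le_one_div_of_le hc3p hc3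
  refine ⟨3 / c ^ 3, ?_, ?_⟩
  · have : 3 / c ^ 3 = 3 * (1 / c ^ 3) := by ring
    rw [this]
    linarith
  intro x y x' y' h h'
  set L : ℝ := |x - x'| + |y - y'| with hL
  have hL0 : 0 ≤ L := by positivity
  obtain ⟨hx, hy⟩ := abs_le_one_of hs1 hs0 h
  obtain ⟨hx', hy'⟩ := abs_le_one_of hs1 hs0 h'
  have hxL : |x - x'| ≤ 1 * L := by
    rw [hL]
    linarith [abs_nonneg (y - y')]
  have hyL : |y - y'| ≤ 1 * L := by
    rw [hL]
    linarith [abs_nonneg (x - x')]
  have hkk : |kk x y - kk x' y'| ≤ (1 / c) * L := by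
    unfold kk
    have hv : c ^ 2 ≤ 1 - x ^ 2 - y ^ 2 := by linarith
    have hw : c ^ 2 ≤ 1 - x' ^ 2 - y' ^ 2 := by linarith
    have h1 := sq_lip hc hv hw
    have h2 : |(1 - x ^ 2 - y ^ 2) - (1 - x' ^ 2 - y' ^ 2)| ≤ 2 * L := by
      have e : (1 - x ^ 2 - y ^ 2) - (1 - x' ^ 2 - y' ^ 2) =
          -(x ^ 2 - x' ^ 2) + -(y ^ 2 - y' ^ 2) := by ring
      rw [e]
      refine (abs_add_le _ _).trans ?_
      rw [abs_neg, abs_neg]
      have i1 := sq_sub_lip hx hx'
      have i2 := sq_sub_lip hy hy'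
      rw [hL]
      linarith
    have h3 : |√(1 - x ^ 2 - y ^ 2) - √(1 - x' ^ 2 - y' ^ 2)| ≤ (1 / c) * L := by
      refine h1.trans ?_
      rw [div_le_iff₀ (by positivity)]
      have e : 1 / c * L * (2 * c) = 2 * L := by field_simp
      rw [e]
      exact h2
    set r := √(1 - x ^ 2 - y ^ 2) with hr
    set r' := √(1 - x' ^ 2 - y' ^ 2) with hr'
    have hr0 : 0 ≤ r := Real.sqrt_nonneg _
    have hr0' : 0 ≤ r' := Real.sqrt_nonneg _
    have e : 1 / (1 + r) - 1 / (1 + r') = (r' - r) / ((1 + r) * (1 + r')) := by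
      have i1 : 1 + r ≠ 0 := by positivity
      have i2 : 1 + r' ≠ 0 := by positivity
      field_simp
      ring
    rw [e, abs_div, abs_of_pos (by positivity : 0 < (1 + r) * (1 + r'))]
    rw [abs_sub_comm] at h3
    refine (div_le_self (abs_nonneg _) ?_).trans h3
    nlinarith [mul_nonneg hr0 hr0']
  have hkb : |kk x y| ≤ 1 := by
    unfold kk
    have hr0 : 0 ≤ √(1 - x ^ 2 - y ^ 2) := Real.sqrt_nonneg _
    rw [abs_of_nonneg (by positivity), div_le_one (by positivity)]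
    linarith
  have hfin : (1 * 1 + 1 * (1 / c)) * L ≤ 3 / c ^ 3 * L := by
    refine mul_le_mul_of_nonneg_right ?_ hL0
    have : 3 / c ^ 3 = 3 * (1 / c ^ 3) := by ring
    rw [this]
    linarith
  refine ⟨fun θ => ?_, ?_, ?_⟩
  · have hdt : dt x y θ ^ 2 ≤ s ^ 2 := by
      unfold dt
      have := Real.sin_sq_add_cos_sq θ
      nlinarith [sq_nonneg (x * sin θ - y * cos θ)]
    have hdt' : dt x' y' θ ^ 2 ≤ s ^ 2 := by
      unfold dt
      have := Real.sin_sq_add_cos_sq θ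
      nlinarith [sq_nonneg (x' * sin θ - y' * cos θ)]
    have hd1 : |dt x y θ| ≤ 1 := by
      rw [← sq_le_one_iff_abs_le_one]
      nlinarith
    have hd1' : |dt x' y' θ| ≤ 1 := by
      rw [← sq_le_one_iff_abs_le_one]
      nlinarith
    have hdl : |dt x y θ - dt x' y' θ| ≤ L :=
      lin_lip x y x' y' _ _ (Real.abs_cos_le_one θ) (Real.abs_sin_le_one θ)
    have h1 := inv_lip hc (v := 1 - dt x y θ ^ 2) (w := 1 - dt x' y' θ ^ 2) (by linarith)
      (by linarith)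
    have h2 : |1 / √(1 - dt x y θ ^ 2) - 1 / √(1 - dt x' y' θ ^ 2)| ≤ (1 / c ^ 3) * L := by
      refine h1.trans ?_
      rw [div_le_iff₀ (by positivity)]
      have e : 1 / c ^ 3 * L * (2 * c ^ 3) = 2 * L := by field_simp
      rw [e]
      have e2 : (1 - dt x y θ ^ 2) - (1 - dt x' y' θ ^ 2) = -(dt x y θ ^ 2 - dt x' y' θ ^ 2) := by
        ring
      rw [e2, abs_neg]
      exact (sq_sub_lip hd1 hd1').trans (by linarith)
    have hn : |(x * sin θ - y * cos θ) - (x' * sin θ - y' * cos θ)| ≤ 1 * L := by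
      have h3 := lin_lip x y x' y' (sin θ) (-cos θ) (Real.abs_sin_le_one θ)
        (by rw [abs_neg]; exact Real.abs_cos_le_one θ)
      have e1 : x * sin θ + y * -cos θ - (x' * sin θ + y' * -cos θ) =
          (x * sin θ - y * cos θ) - (x' * sin θ - y' * cos θ) := by ring
      rw [e1] at h3
      linarith
    have hnb : |x' * sin θ - y' * cos θ| ≤ 2 := by
      have i1 : |x' * sin θ| ≤ 1 := by
        rw [abs_mul]
        exact mul_le_one₀ hx' (abs_nonneg _) (Real.abs_sin_le_one θ)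
      have i2 : |y' * cos θ| ≤ 1 := by
        rw [abs_mul]
        exact mul_le_one₀ hy' (abs_nonneg _) (Real.abs_cos_le_one θ)
      have i3 := abs_sub (x' * sin θ) (y' * cos θ)
      linarith
    have hgb : |1 / √(1 - dt x y θ ^ 2)| ≤ 1 / c := by
      have h4 : c ≤ √(1 - dt x y θ ^ 2) := (Real.le_sqrt' hc).2 (by linarith)
      rw [abs_of_nonneg (by positivity)]
      exact one_div_le_one_div_of_le hc h4
    have h5 := prod_lip hn h2 hnb hgb zero_le_one (by positivity) hL0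
    have e3 : hh θ x y - hh θ x' y' = 2 / π * ((x * sin θ - y * cos θ) *
        (1 / √(1 - dt x y θ ^ 2)) - (x' * sin θ - y' * cos θ) *
        (1 / √(1 - dt x' y' θ ^ 2))) := by
      unfold hh
      ring
    rw [e3, abs_mul, abs_of_nonneg (by positivity : (0 : ℝ) ≤ 2 / π)]
    have hpi : 2 / π ≤ 1 := by
      rw [div_le_one Real.pi_pos]
      exact Real.two_le_pi
    refine (mul_le_of_le_one_left (abs_nonneg _) hpi).trans (h5.trans ?_)
    refine mul_le_mul_of_nonneg_right ?_ hL0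
    have : 3 / c ^ 3 = 3 * (1 / c ^ 3) := by ring
    rw [this]
    linarith
  · exact (prod_lip hxL hkk hx' hkb zero_le_one (by positivity) hL0).trans hfin
  · exact (prod_lip hyL hkk hy' hkb zero_le_one (by positivity) hL0).trans hfin

end Pool.Agent.N717.CAP_LIP
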