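import Mathlib
import Pool.Agent.N585.FP.Defs

/-!
Project FP, part 6: local conditions on a labelled sequence and drawings.
-/

set_option autoImplicit false

namespace Pool.Agent.N717.FP6

open Pool.Agent.N585.FP

theorem near_symm {B i j : ℕ} (h : Near B i j) : Near B j i := ⟨h.2, h.1⟩

/-- the positions with label `x` -/
def F (n : ℕ) (u : ℕ → ℕ × Bool) (x : ℕ) : Finset ℕ := (Finset.range n).filter fun i => (u i).1 = x

theorem mem_F {n : ℕ} {u : ℕ → ℕ × Bool} {x i : ℕ} : i ∈ F n u x ↔ i < n ∧ (u i).1 = x := by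
  simp [F]

theorem card_le {G : SimpleGraph ℕ} {U : Finset ℕ} {n B : ℕ} {u : ℕ → ℕ × Bool}
    (h : Loc G U n B u) {x y : ℕ} (hx : x ∈ U) (hy : y ∈ U) (hxy : G.Adj x y) :
    (F n u x).card ≤ (F n u y).card := by
  classical
  have h1 : ∀ i : ℕ, ∃ j : ℕ, i ∈ F n u x → (j < n ∧ Near B i j ∧ (u j).1 = y) := by
    intro i
    by_cases hi : i ∈ F n u x
    · rw [mem_F] at hi
      obtain ⟨j, hj, hn, hl, -, -⟩ := h.nbr i hi.1 y hy (by rw [hi.2]; exact hxy)
      exact ⟨j, fun _ => ⟨hj, hn, hl⟩⟩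
    · exact ⟨0, fun h => absurd h hi⟩
  choose φ hφ using h1
  refine Finset.card_le_card_of_injOn φ ?_ ?_
  · intro i hi
    obtain ⟨a, b, c⟩ := hφ i hi
    exact mem_F.mpr ⟨a, c⟩
  · intro i hi i' hi' he
    obtain ⟨a, b, c⟩ := hφ i hi
    obtain ⟨a', b', c'⟩ := hφ i' hi'
    obtain ⟨k, -, -, -, -, huniq⟩ := h.nbr (φ i) a x hx (by rw [c]; exact hxy.symm)
    have e1 := huniq i (mem_F.mp hi).1 (near_symm b) (mem_F.mp hi).2
    have e2 := huniq i' (mem_F.mp hi').1 (by rw [he]; exact near_symm b') (mem_F.mp hi').2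
    rw [e1, e2]

theorem card_le_reach {G : SimpleGraph ℕ} {U : Finset ℕ} {n B : ℕ} {u : ℕ → ℕ × Bool}
    (h : Loc G U n B u) {x y : ℕ} (hr : Reach G U x y) :
    (F n u x).card ≤ (F n u y).card := by
  induction hr with
  | refl => exact le_rfl
  | tail _ h2 ih => exact ih.trans (card_le h h2.1 h2.2.1 h2.2.2)

theorem card_one {G : SimpleGraph ℕ} {U : Finset ℕ} {B : ℕ} {u : ℕ → ℕ × Bool}
    (hc : Conn G U) (h : Loc G U U.card B u) {x : ℕ} (hx : x ∈ U) :
    (F U.card u x).card = 1 := by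
  classical
  have h1 : ∀ y ∈ U, (F U.card u y).card = (F U.card u x).card := fun y hy =>
    le_antisymm (card_le_reach h (hc y hy x hx)) (card_le_reach h (hc x hx y hy))
  have h2 : (Finset.range U.card).card
      = ∑ y ∈ U, ((Finset.range U.card).filter fun i => (u i).1 = y).card :=
    Finset.card_eq_sum_card_fiberwise fun i hi => h.mem i (Finset.mem_range.mp hi)
  have h3 : ∑ y ∈ U, ((Finset.range U.card).filter fun i => (u i).1 = y).card
      = ∑ y ∈ U, (F U.card u x).card := Finset.sum_congr rfl fun y hy => h1 y hy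
  rw [Finset.card_range, h3, Finset.sum_const, smul_eq_mul] at h2
  have hpos : 0 < U.card := Finset.card_pos.mpr ⟨x, hx⟩
  have h4 : U.card * (F U.card u x).card = U.card * 1 := by rw [← h2, mul_one]
  exact Nat.eq_of_mul_eq_mul_left hpos h4

/-- FP/6. -/
theorem stmLoc : StmLoc := by
  classical
  intro G U B u hc h
  have h1 : ∀ x : ℕ, ∃ i : ℕ, x ∈ U → F U.card u x = {i} := by
    intro x
    by_cases hx : x ∈ U
    · obtain ⟨i, hi⟩ := Finset.card_eq_one.mp (card_one hc h hx)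
      exact ⟨i, fun _ => hi⟩
    · exact ⟨0, fun h => absurd h hx⟩
  choose P hP using h1
  have hP1 : ∀ x ∈ U, P x < U.card ∧ (u (P x)).1 = x := by
    intro x hx
    have : P x ∈ F U.card u x := by rw [hP x hx]; exact Finset.mem_singleton_self _
    exact mem_F.mp this
  have hP2 : ∀ x ∈ U, ∀ i < U.card, (u i).1 = x → i = P x := by
    intro x hx i hi hl
    have : i ∈ F U.card u x := mem_F.mpr ⟨hi, hl⟩
    rw [hP x hx] at this
    exact Finset.mem_singleton.mp this
  have hN : ∀ x ∈ U, ∀ y ∈ U, G.Adj x y → Near B (P x) (P y) ∧ (u (P y)).2 ≠ (u (P x)).2 := by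
    intro x hx y hy hxy
    obtain ⟨j, hj, hn, hl, hs, -⟩ := h.nbr (P x) (hP1 x hx).1 y hy
      (by rw [(hP1 x hx).2]; exact hxy)
    have := hP2 y hy j hj hl
    rw [this] at hn hs
    exact ⟨hn, hs⟩
  have hinj : ∀ x ∈ U, ∀ y ∈ U, P x = P y → x = y := by
    intro x hx y hy he
    rw [← (hP1 x hx).2, ← (hP1 y hy).2, he]
  have hE : ∀ a b : ℕ, Ed G U (fun x => (u (P x)).2) a b → PEd G U.card B u (P a) (P b) := by
    intro a b hab
    obtain ⟨ha, hb, hsa, hsb, had⟩ := hab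
    exact ⟨(hP1 a ha).1, (hP1 b hb).1, (hN a ha b hb had).1, hsa, hsb, by
      rw [(hP1 a ha).2, (hP1 b hb).2]; exact had⟩
  refine ⟨fun x => (u (P x)).2, P, hinj, ?_, ?_⟩
  · intro x hx y hy hxy
    exact fun he => (hN x hx y hy hxy).2 he.symm
  · intro a b a₁ b₁ a₂ b₂ h0 h1 h2 c1 c2
    rcases h.fan (P a) (P b) (P a₁) (P b₁) (P a₂) (P b₂) (hE a b h0) (hE _ _ h1) (hE _ _ h2)
      c1 c2 with h3 | h3
    · exact Or.inl (hinj a₁ h1.1 a₂ h2.1 h3)
    · exact Or.inr (hinj b₁ h1.2.1 b₂ h2.2.1 h3)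

/-- FP/6, converse. -/
theorem stmLoc' : StmLoc' := by
  classical
  intro G U B side q hd hq hB
  have hsurj : ∀ i : ℕ, ∃ x : ℕ, i < U.card → (x ∈ U ∧ q x = i) := by
    intro i
    by_cases hi : i < U.card
    · have himg : U.image q = Finset.range U.card := by
        refine Finset.eq_of_subset_of_card_le ?_ ?_
        · intro j hj
          obtain ⟨x, hx, rfl⟩ := Finset.mem_image.mp hj
          exact Finset.mem_range.mpr (hq x hx)
        · rw [Finset.card_range, Finset.card_image_of_injOn]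
          intro x hx y hy he
          exact hd.inj x hx y hy he
      have : i ∈ U.image q := by rw [himg]; exact Finset.mem_range.mpr hi
      obtain ⟨x, hx, he⟩ := Finset.mem_image.mp this
      exact ⟨x, fun _ => ⟨hx, he⟩⟩
    · exact ⟨0, fun h => absurd h hi⟩
  choose r hr using hsurj
  have hrq : ∀ x ∈ U, r (q x) = x := by
    intro x hx
    have h1 := hr (q x) (hq x hx)
    exact hd.inj _ h1.1 x hx h1.2
  have hqr : ∀ i < U.card, q (r i) = i := fun i hi => (hr i hi).2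
  have hmem : ∀ i < U.card, r i ∈ U := fun i hi => (hr i hi).1
  have hE : ∀ i j : ℕ, PEd G U.card B (fun i => (r i, side (r i))) i j →
      Ed G U side (r i) (r j) := by
    intro i j hij
    obtain ⟨hi, hj, -, h1, h2, h3⟩ := hij
    exact ⟨hmem i hi, hmem j hj, h1, h2, h3⟩
  refine ⟨fun i => (r i, side (r i)), ?_, ?_, ?_⟩
  · intro i hi
    exact hmem i hi
  · intro i hi x hx hadj
    have hadj' : G.Adj (r i) x := hadj
    refine ⟨q x, hq x hx, ?_, ?_, ?_, ?_⟩
    · have h1 := hB (r i) (hmem i hi) x hx hadj'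
      have h2 := hB x hx (r i) (hmem i hi) hadj'.symm
      rw [hqr i hi] at h1 h2
      exact ⟨h1, h2⟩
    · exact hrq x hx
    · show side (r (q x)) ≠ side (r i)
      rw [hrq x hx]
      exact (hd.bip (r i) (hmem i hi) x hx hadj').symm
    · intro k hk _ hl
      have hl' : r k = x := hl
      rw [← hl', hqr k hk]
  · intro a b a₁ b₁ a₂ b₂ h0 h1 h2 c1 c2
    have hc : ∀ i j i' j' : ℕ, i < U.card → j < U.card → i' < U.card → j' < U.card →
        Cross id i j i' j' → Cross q (r i) (r j) (r i') (r j') := by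
      intro i j i' j' hi hj hi' hj' hc
      unfold Cross at hc ⊢
      rw [hqr i hi, hqr j hj, hqr i' hi', hqr j' hj']
      exact hc
    rcases hd.fan (r a) (r b) (r a₁) (r b₁) (r a₂) (r b₂) (hE _ _ h0) (hE _ _ h1) (hE _ _ h2)
      (hc a b a₁ b₁ h0.1 h0.2.1 h1.1 h1.2.1 c1) (hc a b a₂ b₂ h0.1 h0.2.1 h2.1 h2.2.1 c2)
      with h3 | h3
    · left
      rw [← hqr a₁ h1.1, ← hqr a₂ h2.1, h3]
    · right
      rw [← hqr b₁ h1.2.1, ← hqr b₂ h2.2.1, h3]

end Pool.Agent.N717.FP6
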