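import Mathlib
import Pool.Agent.N576.MX.Defs

set_option autoImplicit false

/-!
# MX/UNIQ (helper717 for helper576): a word is determined by its unordered Markov triple
-/

namespace Pool.Agent.N717.MX

open Pool.Agent.H499R2 Pool.Agent.N576.MX

/-- integral facts on the nodes -/
lemma facts (l : List Bool) : 1 ≤ (desc root l).a ∧ 1 ≤ (desc root l).b ∧
    2 * (desc root l).a * (desc root l).b ≤ (desc root l).c := by
  have h := (valid_root.desc l).mt
  refine ⟨by exact_mod_cast h.ha, by exact_mod_cast h.hb, by exact_mod_cast h.c_ge⟩

lemma a_lt_c (l : List Bool) : (desc root l).a < (desc root l).c ∧ (desc root l).b < (desc root l).c := by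
  obtain ⟨h1, h2, h3⟩ := facts l
  constructor <;> nlinarith

lemma a_ne_b (l : List Bool) : (desc root l).a ≠ (desc root l).b := by
  rcases List.eq_nil_or_concat l with h | ⟨l0, d, h⟩
  · subst h; simp [desc, root]
  · subst h
    have h1 := a_lt_c l0
    rw [List.concat_eq_append, desc_snoc]
    cases d
    · show (desc root l0).c ≠ (desc root l0).b
      exact h1.2.ne'
    · show (desc root l0).a ≠ (desc root l0).c
      exact h1.1.ne

lemma c_ge_four (l : List Bool) : 4 ≤ (desc root l).c := by
  obtain ⟨h1, h2, h3⟩ := facts l
  have h4 := a_ne_b l
  rcases lt_or_gt_of_ne h4 with h | h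
  · nlinarith
  · nlinarith

lemma aux (n : ℕ) : ∀ l l' : List Bool, l.length ≤ n → (desc root l).c = (desc root l').c →
    (((desc root l).a = (desc root l').a ∧ (desc root l).b = (desc root l').b) ∨
      ((desc root l).a = (desc root l').b ∧ (desc root l).b = (desc root l').a)) → l = l' := by
  -- the empty word
  have hnil : ∀ l' : List Bool, 
      (((desc root []).a = (desc root l').a ∧ (desc root []).b = (desc root l').b) ∨
      ((desc root []).a = (desc root l').b ∧ (desc root []).b = (desc root l').a)) → [] = l' := by
    intro l' h
    rcases List.eq_nil_or_concat l' with h' | ⟨l0, d, h'⟩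
    · exact h'.symm
    · exfalso
      subst h'
      have h4 := c_ge_four l0
      rw [List.concat_eq_append, desc_snoc] at h
      have ea : (desc root []).a = 1 := rfl
      have eb : (desc root []).b = 2 := rfl
      rw [ea, eb] at h
      cases d
      · have e1 : (step (desc root l0) false).a = (desc root l0).c := rfl
        rw [e1] at h
        omega
      · have e1 : (step (desc root l0) true).b = (desc root l0).c := rfl
        rw [e1] at h
        omega
  induction n with
  | zero =>
    intro l l' hl _ h
    have : l = [] := List.length_eq_zero_iff.mp (by omega)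
    subst this
    exact hnil l' h
  | succ n ih =>
    intro l l' hl hc h
    rcases List.eq_nil_or_concat l with h0 | ⟨l0, d, h0⟩
    · subst h0; exact hnil l' h
    rcases List.eq_nil_or_concat l' with h0' | ⟨l0', d', h0'⟩
    · subst h0'
      refine (hnil l ?_).symm
      rcases h with ⟨h1, h2⟩ | ⟨h1, h2⟩
      · exact Or.inl ⟨h1.symm, h2.symm⟩
      · exact Or.inr ⟨h2.symm, h1.symm⟩
    subst h0 h0'
    rw [List.concat_eq_append] at hl hc h ⊢
    rw [List.concat_eq_append] at hc h ⊢
    rw [desc_snoc, desc_snoc] at hc h
    have hl0 : l0.length ≤ n := by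
      rw [List.length_append, List.length_singleton] at hl; omega
    obtain ⟨p1, p2⟩ := a_lt_c l0
    obtain ⟨q1, q2⟩ := a_lt_c l0'
    have hne := a_ne_b l0
    have hne' := a_ne_b l0'
    have key := ih l0 l0' hl0
    cases d <;> cases d'
    · -- false false
      change 3 * (desc root l0).b * (desc root l0).c - (desc root l0).a =
        3 * (desc root l0').b * (desc root l0').c - (desc root l0').a at hc
      change ((desc root l0).c = (desc root l0').c ∧ (desc root l0).b = (desc root l0').b) ∨
        ((desc root l0).c = (desc root l0').b ∧ (desc root l0).b = (desc root l0').c) at h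
      rcases h with ⟨h1, h2⟩ | ⟨h1, h2⟩
      · rw [h1, h2] at hc
        rw [key h1 (Or.inl ⟨by omega, h2⟩)]
      · omega
    · -- false true
      change 3 * (desc root l0).b * (desc root l0).c - (desc root l0).a =
        3 * (desc root l0').a * (desc root l0').c - (desc root l0').b at hc
      change ((desc root l0).c = (desc root l0').a ∧ (desc root l0).b = (desc root l0').c) ∨
        ((desc root l0).c = (desc root l0').c ∧ (desc root l0).b = (desc root l0').a) at h
      rcases h with ⟨h1, h2⟩ | ⟨h1, h2⟩
      · omega
      · rw [h1, h2] at hc
        have e := key h1 (Or.inr ⟨by omega, h2⟩)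
        rw [e] at h2
        exact absurd h2.symm hne'
    · -- true false
      change 3 * (desc root l0).a * (desc root l0).c - (desc root l0).b =
        3 * (desc root l0').b * (desc root l0').c - (desc root l0').a at hc
      change ((desc root l0).a = (desc root l0').c ∧ (desc root l0).c = (desc root l0').b) ∨
        ((desc root l0).a = (desc root l0').b ∧ (desc root l0).c = (desc root l0').c) at h
      rcases h with ⟨h1, h2⟩ | ⟨h1, h2⟩
      · omega
      · rw [h1, h2] at hc
        have e := key h2 (Or.inr ⟨h1, by omega⟩)
        rw [e] at h1
        exact absurd h1 hne'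
    · -- true true
      change 3 * (desc root l0).a * (desc root l0).c - (desc root l0).b =
        3 * (desc root l0').a * (desc root l0').c - (desc root l0').b at hc
      change ((desc root l0).a = (desc root l0').a ∧ (desc root l0).c = (desc root l0').c) ∨
        ((desc root l0).a = (desc root l0').c ∧ (desc root l0).c = (desc root l0').a) at h
      rcases h with ⟨h1, h2⟩ | ⟨h1, h2⟩
      · rw [h1, h2] at hc
        rw [key h2 (Or.inl ⟨h1, by omega⟩)]
      · omega

theorem uniq : UNIQ := fun l l' hc h => aux l.length l l' le_rfl hc h

end Pool.Agent.N717.MX
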